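import Pool.Agent.Helper98.LC3.A.Face5
import Pool.Agent.Helper98.LC3.S.OneSharp
import Pool.Agent.Helper98.LC3.S.Sharp
import Pool.Agent.Helper38.LC3.Bdry

/-!
# LC3-A06: the deficit of a class in `S`

`oc i = {e}`, `d = eopp c e` (`enb c d = c e.1 = i`, `eopp c d = e`, `d ∈ corners o`), `e_m = (es c)^[m] e`, `e_5 = e`, `c (tip d) = enb c e_1` (`wall_start`), `es c d`: `wall_end` with `e' = e_4`.
* `dv_eq`: `zs d = zl d - [Rg d] et0 * ev e_1`, `zs (es c d) = zl (es c d) + [Rg (es c d)] et0 * ev e_4` (`wv (es c d) = - ev e_4`), `zl d - zl (es c d) = ev e` (`zl_eopp`, `zl_es_eopp`).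
* `dfi_eq`: `iter_sum` for `corners i`, `oc i = {e}`, `corners \ oc` = `e_1, .., e_4`; `e0 * (6 - 5 - 1) = 0`; `lam3 d = ‖dv d‖` as `ar (enb c d) < 2`.
* `Rg d ↔ InS (c (tip d))`, `Rg (es c d) ↔ InS (enb c (es c d))` because `enb c d = i`, `c (tip (es c d)) = enb c d` (`tip_es`), `InS i`.  So `bal d = [¬ Rg d] + [¬ Rg (es c d)]`.
* `dfi_S_irr`: exactly one irregular end: `one41_1` or `one41_2`: `dfi ≥ -2 * .0035 + pay = 10^(-6)`.  Both irregular: `dv d = ev e`, `bdry41_00` (`F = corners i`, `O = oc i`, `faceFacts2`): `dfi ≥ -.013 + 2 pay ≥ 10^(-6)` (`c0 ≤ .5236`).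
* `dfi_S_reg`: `bal d = 0`.
-/

namespace Pool.Agent.Helper98.LC3

open Finset Real Pool.Agent.Helper98.LC Pool.Agent.Helper38.LC2

variable {ι : Type} [DecidableEq ι]

/-- the deficit of the inequality `sharp41` at the edge `e` -/
noncomputable def sg5 (G : Net) (c : V → ι) (n : ℕ) (i : ι) (e : V × Fin 6) (w : ℂ) : ℝ :=
  HH (elen G c (es c e)) (elen G c ((es c)^[2] e)) (elen G c ((es c)^[3] e))
    (elen G c ((es c)^[4] e)) (ebul G c (es c e)) (ebul G c ((es c)^[2] e))
    (ebul G c ((es c)^[3] e)) (ebul G c ((es c)^[4] e)) + elen G c e - 3 * min 1 (ar G c n i) -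
    c0 * ‖w‖

/-- the basic facts about the outer edge -/
private theorem a06_basic {G : Net} {c : V → ι} {o : ι} {n : ℕ} (h : OutBox c o n) {i : ι}
    {e : V × Fin 6} (he : e ∈ oc c n o i) : e ∈ corners c n i ∧ IsCorner c e ∧ c e.1 = i ∧
      enb c e = o ∧ IsCorner c (eopp c e) ∧ enb c (eopp c e) = i ∧ eopp c (eopp c e) = e := by
  unfold oc at he
  rw [mem_filter] at he
  obtain ⟨h1, h2⟩ := he
  obtain ⟨h3, h4⟩ := (mem_corners h i e).1 h1
  obtain ⟨h5, _, h7, _⟩ := eopp_corner h h3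
  exact ⟨h1, h3, h4, h2, h5, h7.trans h4, eopp_eopp h h3⟩

private theorem a06_five {G : Net} {c : V → ι} {o : ι} {n : ℕ} (h : OutBox c o n) (hc : Conn c)
    {i : ι} (hS : InS G c n o i) (hco : CoConn c i) {e : V × Fin 6} (he : e ∈ oc c n o i) :
    es c ((es c)^[4] e) = e := by
  have h1 := (es_card h hc hS.1 hco (a06_basic (G := G) h he).1).1
  rw [hS.2.1] at h1
  rw [← Function.iterate_succ_apply' (es c) 4 e]
  exact h1

private theorem a06_end {G : Net} {c : V → ι} {o : ι} {n : ℕ} (h : OutBox c o n) (hc : Conn c)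
    {i : ι} (hS : InS G c n o i) (hco : CoConn c i) {e : V × Fin 6} (he : e ∈ oc c n o i) :
    wv G c (es c (eopp c e)) = - ev G c ((es c)^[4] e) := by
  have h1 := a06_basic (G := G) h he
  have h2 : (es c)^[4] e ∈ corners c n i := iter_mem' h h1.1 4
  have h3 := (wall_end G h ((mem_corners h i _).1 h2).1).2.1
  rwa [a06_five h hc hS hco he] at h3

open Classical in
theorem dv_eq {G : Net} {c : V → ι} {o : ι} {n : ℕ} (h : OutBox c o n) (hc : Conn c) {i : ι}
    (hS : InS G c n o i) (hco : CoConn c i) {e : V × Fin 6} (he : e ∈ oc c n o i) :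
    dv G c n o (eopp c e) = ev G c e -
      (if Rg G c n o (eopp c e) then (et0 : ℂ) * ev G c (es c e) else 0) -
      (if Rg G c n o (es c (eopp c e)) then (et0 : ℂ) * ev G c ((es c)^[4] e) else 0) := by
  obtain ⟨h1, h2, h3, h4, h5, h6, h7⟩ := a06_basic (G := G) h he
  have hw1 : wv G c (eopp c e) = ev G c (es c e) := (wall_start G h h2).1
  have hw2 := a06_end h hc hS hco he
  have hz1 : G.zl (eopp c e) = G.zl (es c e) := zl_eopp G h h2
  have hz2 : G.zl (es c (eopp c e)) = G.zl e := zl_es_eopp G h h2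
  unfold dv zs
  rw [hw1, hw2, hz1, hz2]
  have hev : ev G c e = G.zl (es c e) - G.zl e := rfl
  rw [hev]
  split_ifs <;> ring

private theorem a06_rg1 {G : Net} {c : V → ι} {o : ι} {n : ℕ} (h : OutBox c o n) {i : ι}
    (hS : InS G c n o i) {e : V × Fin 6} (he : e ∈ oc c n o i) :
    Rg G c n o (eopp c e) ↔ InS G c n o (c (tip (eopp c e))) := by
  obtain ⟨h1, h2, h3, h4, h5, h6, h7⟩ := a06_basic (G := G) h he
  unfold Rg
  rw [h6]
  exact ⟨fun hh => hh.1, fun hh => ⟨hh, hS⟩⟩

private theorem a06_rg2 {G : Net} {c : V → ι} {o : ι} {n : ℕ} (h : OutBox c o n) {i : ι}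
    (hS : InS G c n o i) {e : V × Fin 6} (he : e ∈ oc c n o i) :
    Rg G c n o (es c (eopp c e)) ↔ InS G c n o (enb c (es c (eopp c e))) := by
  obtain ⟨h1, h2, h3, h4, h5, h6, h7⟩ := a06_basic (G := G) h he
  unfold Rg
  rw [tip_es h h5, h6]
  exact ⟨fun hh => hh.2, fun hh => ⟨hS, hh⟩⟩

open Classical in
theorem bal_S {G : Net} {c : V → ι} {o : ι} {n : ℕ} (h : OutBox c o n) {i : ι}
    (hS : InS G c n o i) {e : V × Fin 6} (he : e ∈ oc c n o i) :
    bal G c n o (eopp c e) = (if Rg G c n o (eopp c e) then 0 else 1) +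
      (if Rg G c n o (es c (eopp c e)) then 0 else 1) := by
  obtain ⟨h1, h2, h3, h4, h5, h6, h7⟩ := a06_basic (G := G) h he
  unfold bal
  have h8 : InS G c n o (enb c (eopp c e)) := by
    rw [h6]
    exact hS
  rw [if_pos h8]
  congr 1
  · exact if_congr (a06_rg1 h hS he).symm rfl rfl
  · exact if_congr (a06_rg2 h hS he).symm rfl rfl

theorem dfi_eq {G : Net} {c : V → ι} {o : ι} {n : ℕ} (h : OutBox c o n) (hc : Conn c) {i : ι}
    (hx : ∃ x, c x = i) (hS : InS G c n o i) (hco : CoConn c i) {e : V × Fin 6}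
    (he : e ∈ oc c n o i) :
    dfi G c n o i = 2 * sg5 G c n i e (dv G c n o (eopp c e)) + pay * bal G c n o (eopp c e) := by
  obtain ⟨h1, h2, h3, h4, h5, h6, h7⟩ := a06_basic (G := G) h he
  have hoc : oc c n o i = {e} := by
    obtain ⟨e', he'⟩ := Finset.card_eq_one.1 hS.2.2.1
    rw [he', Finset.mem_singleton] at he
    rw [he', he]
  have hlam : lam3 G c n o (eopp c e) = ‖dv G c n o (eopp c e)‖ := by
    unfold lam3
    rw [h6, if_pos hS.2.2.2]
  have hsub : oc c n o i ⊆ corners c n i := Finset.filter_subset _ _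
  have hy : ∑ d ∈ corners c n i \ oc c n o i, ebul G c d =
      ∑ d ∈ corners c n i, ebul G c d - ebul G c e := by
    rw [← Finset.sum_sdiff hsub, hoc, Finset.sum_singleton]
    ring
  unfold dfi
  rw [if_pos hx, hy, iter_sum h hc hS.1 hco h1 (elen G c), iter_sum h hc hS.1 hco h1 (ebul G c),
    hoc, Finset.sum_singleton, Finset.sum_singleton, Finset.sum_singleton, hlam, hS.2.1,
    Finset.card_singleton]
  unfold sg5 HH
  simp only [Finset.sum_range_succ, Finset.sum_range_zero, Function.iterate_zero, id,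
    Function.iterate_one, zero_add]
  push_cast
  ring

theorem dfi_S_reg {G : Net} {c : V → ι} {o : ι} {n : ℕ} (h : OutBox c o n) (hc : Conn c) {i : ι}
    (hx : ∃ x, c x = i) (hS : InS G c n o i) (hco : CoConn c i) {e : V × Fin 6}
    (he : e ∈ oc c n o i) (h1 : Rg G c n o (eopp c e)) (h2 : Rg G c n o (es c (eopp c e))) :
    dv G c n o (eopp c e) = ev G c e - (et0 : ℂ) * (ev G c (es c e) + ev G c ((es c)^[4] e)) ∧
      dfi G c n o i = 2 * sg5 G c n i e (dv G c n o (eopp c e)) := by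
  constructor
  · rw [dv_eq h hc hS hco he, if_pos h1, if_pos h2]
    ring
  · rw [dfi_eq h hc hx hS hco he, bal_S h hS he, if_pos h1, if_pos h2]
    ring

theorem dfi_S_irr [Fintype ι] {G : Net} {c : V → ι} {o : ι} {n : ℕ} {η : ℝ} (hη : 0 ≤ η)
    (hη1 : η ≤ 1 / 10) (h : GMin G c o n η) (hl : NoLoop c) {i : ι} (hx : ∃ x, c x = i)
    (hS : InS G c n o i) (hco : CoConn c i) {e : V × Fin 6} (he : e ∈ oc c n o i)
    (h1 : ¬ (Rg G c n o (eopp c e) ∧ Rg G c n o (es c (eopp c e)))) :
    1 / 10 ^ 6 ≤ dfi G c n o i := by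
  have hout := h.out
  have hconn := h.conn
  obtain ⟨k1, k2, k3, k4, k5, k6, k7⟩ := a06_basic (G := G) hout he
  have hface := face41 hη hη1 h hl hx hS hco he
  rw [dfi_eq hout hconn hx hS hco he, bal_S hout hS he]
  have hdv := dv_eq hout hconn hS hco he
  by_cases r1 : Rg G c n o (eopp c e)
  · have r2 : ¬ Rg G c n o (es c (eopp c e)) := fun hh => h1 ⟨r1, hh⟩
    rw [if_pos r1, if_neg r2, sub_zero] at hdv
    rw [if_pos r1, if_neg r2, hdv]
    have h2 := one41_1 hface
    unfold sg5 pay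
    norm_num at h2 ⊢
    linarith
  · by_cases r2 : Rg G c n o (es c (eopp c e))
    · rw [if_neg r1, if_pos r2, sub_zero] at hdv
      rw [if_neg r1, if_pos r2, hdv]
      have h2 := one41_2 hface
      unfold sg5 pay
      norm_num at h2 ⊢
      linarith
    · rw [if_neg r1, if_neg r2, sub_zero, sub_zero] at hdv
      rw [if_neg r1, if_neg r2, hdv]
      have hmin := gmin_minimal h
      have hff := Pool.Agent.Helper38.LC2.faceFacts2 G hout hl hS.1
      have hoc : oc c n o i = {e} := by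
        obtain ⟨e', he'⟩ := Finset.card_eq_one.1 hS.2.2.1
        rw [he', Finset.mem_singleton] at he
        rw [he', he]
      have hsub : oc c n o i ⊆ corners c n i := Finset.filter_subset _ _
      have h2 := Pool.Agent.Helper38.LC3.bdry41_00 hff (ar_pos hmin hS.1 hx) hS.2.2.2
        (oc c n o i) hsub hS.2.2.1 hS.2.1 (fun d hd => by
          rw [Finset.mem_sdiff] at hd
          refine elen_le_inner hmin hS.1 hd.1 fun hh => hd.2 ?_
          unfold oc
          exact Finset.mem_filter.2 ⟨hd.1, hh⟩)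
      have hy : ∑ d ∈ corners c n i \ oc c n o i, ebul G c d =
          ∑ d ∈ corners c n i, ebul G c d - ebul G c e := by
        rw [← Finset.sum_sdiff hsub, hoc, Finset.sum_singleton]
        ring
      rw [hy, iter_sum hout hconn hS.1 hco k1 (elen G c),
        iter_sum hout hconn hS.1 hco k1 (ebul G c), hoc, Finset.sum_singleton,
        Finset.sum_singleton, hS.2.1] at h2
      simp only [Finset.sum_range_succ, Finset.sum_range_zero, Function.iterate_zero, id,
        Function.iterate_one, zero_add] at h2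
      have h3 : echd G c e = ‖ev G c e‖ := rfl
      rw [h3] at h2
      have h4 : c0 * ‖ev G c e‖ ≤ 5236 / 10000 * ‖ev G c e‖ := by
        refine mul_le_mul_of_nonneg_right ?_ (norm_nonneg _)
        unfold c0
        have := Real.pi_lt_d4
        norm_num at this ⊢
        linarith
      have h5 : 0 ≤ √(ar G c n i) := Real.sqrt_nonneg _
      have h6 : 0 ≤ elen G c e := (norm_nonneg _).trans (hff.ch_le e k1)
      unfold sg5 HH pay
      norm_num at h2 h4 ⊢
      linarith

/-- the three cases -/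
theorem dfi_S [Fintype ι] {G : Net} {c : V → ι} {o : ι} {n : ℕ} {η : ℝ} (hη : 0 ≤ η)
    (hη1 : η ≤ 1 / 10) (h : GMin G c o n η) (hl : NoLoop c) {i : ι} (hx : ∃ x, c x = i)
    (hS : InS G c n o i) (hco : CoConn c i) {e : V × Fin 6} (he : e ∈ oc c n o i) :
    1 / 10 ^ 6 ≤ dfi G c n o i ∨
      (0 ≤ dfi G c n o i ∧ Rg G c n o (eopp c e) ∧ Rg G c n o (es c (eopp c e)) ∧
        Cen41 (ev G c e) (-(ev G c ((es c)^[2] e) + ev G c ((es c)^[3] e))) ∧
        1 ≤ ‖dv G c n o (eopp c e)‖) := by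
  by_cases h1 : Rg G c n o (eopp c e) ∧ Rg G c n o (es c (eopp c e))
  · have hface := face41 hη hη1 h hl hx hS hco he
    obtain ⟨hdv, hdfi⟩ := dfi_S_reg h.out h.conn hx hS hco he h1.1 h1.2
    rcases sharp41_cases hface with h2 | h2
    · left
      rw [hdfi, hdv]
      unfold sg5
      norm_num at h2 ⊢
      linarith
    · right
      refine ⟨?_, h1.1, h1.2, h2.1, ?_⟩
      · rw [hdfi, hdv]
        unfold sg5
        linarith [h2.2.2]
      · rw [hdv]
        exact h2.2.1
  · left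
    exact dfi_S_irr hη hη1 h hl hx hS hco he h1

end Pool.Agent.Helper98.LC3
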