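import Pool.Agent.Helper98.LC3.A.DfiB
import Pool.Agent.Helper98.LC3.A.DfiS
import Pool.Agent.Helper98.LC.F.Cancel

/-!
# LC3-A10: counting

`E = ∑ i ≠ o, dfi i`.
* `dfi_nonneg`: empty class: `0`; otherwise `dfi_S`, `dfi_bd`, `dfi_in`, `dfi_six` (`oc` is empty or not; `InS` gives `oc = {e}`, `card_eq_one`).
* `count_o`: `card (corners o) = ∑ i ≠ o, card (oc i)` (`card_outer`), `∑ corners o, lam3 = ∑ i ≠ o, ∑ oc i, lam3 (eopp c e)` (`sum_outer`).  Class by class: `card (oc i) ≤ ∑ oc i, lam3 (eopp c e) + 10^6 dfi i`: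
  `InS`: `oc = {e}`, `dfi_S`: `1 ≤ 10^6 dfi` or `1 ≤ ‖dv (eopp c e)‖ = lam3` (`ar (enb c (eopp c e)) = ar i < 2`, `eopp_corner`); not `InS`: `dfi_bd`, `card oc ≤ card corners`; empty class or `oc = ∅`: trivial.
* `big_len`: `∑ corners o, not small, elen = ∑ i ≠ o, ∑ e ∈ oc i, [¬ ar i < 2] elen` (`sum_outer`, `elen_eopp`); such a class is not in `S`: `dfi_bd`.
* `lam3_nonneg`.
-/

namespace Pool.Agent.Helper98.LC3

open Finset Real Pool.Agent.Helper98.LC Pool.Agent.Helper38.LC2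

variable {ι : Type} [DecidableEq ι]

theorem lam3_nonneg (G : Net) (c : V → ι) (n : ℕ) (o : ι) (d : V × Fin 6) :
    0 ≤ lam3 G c n o d := by
  sorry

theorem dfi_nonneg [Fintype ι] {G : Net} {c : V → ι} {o : ι} {n : ℕ} {η : ℝ} (hη : 0 ≤ η)
    (hη1 : η ≤ 1 / 10) (h : GMin G c o n η) (hl : NoLoop c) (hcc : ∀ k, k ≠ o → CoConn c k)
    {i : ι} (hi : i ≠ o) : 0 ≤ dfi G c n o i := by
  sorry

theorem count_o [Fintype ι] {G : Net} {c : V → ι} {o : ι} {n : ℕ} {η : ℝ} (hη : 0 ≤ η)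
    (hη1 : η ≤ 1 / 10) (h : GMin G c o n η) (hl : NoLoop c) (hcc : ∀ k, k ≠ o → CoConn c k) :
    ((corners c n o).card : ℝ) ≤ ∑ d ∈ corners c n o, lam3 G c n o d +
      10 ^ 6 * ∑ i ∈ univ.filter (fun i => i ≠ o), dfi G c n o i := by
  sorry

theorem big_len [Fintype ι] {G : Net} {c : V → ι} {o : ι} {n : ℕ} {η : ℝ} (hη : 0 ≤ η)
    (hη1 : η ≤ 1 / 10) (h : GMin G c o n η) (hl : NoLoop c) (hcc : ∀ k, k ≠ o → CoConn c k) :
    ∑ d ∈ (corners c n o).filter (fun d => ¬ ar G c n (enb c d) < 2), elen G c d ≤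
      10 ^ 6 * ∑ i ∈ univ.filter (fun i => i ≠ o), dfi G c n o i := by
  sorry

end Pool.Agent.Helper98.LC3
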