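import Pool.Agent.Helper98.LC3.A.DfiB
import Pool.Agent.Helper98.LC3.A.DfiS
import Pool.Agent.Helper98.LC.F.Curve

/-!
# LC3-A09: the curve around the cluster, with shifted corners

`T d = zl d - zs d`: `0` unless `Rg d`; `‖T d‖ ≤ et0 * 3 ≤ .155` (`wv G c d = ev G c (es c (eopp c d))`, the wall belongs to the class `enb c d ∈ S` and is an inner edge (`enb_wall`: its other side is `c (tip d) ≠ o`),
`elen_le_inner`).
* `shift_small`: as said.
* `bul_small`: `ar (enb c d) < 2`: `A0 |ebul d| ≤ elen²/(2π) ≤ 1.6` (`elen ≤ 3.1`; `dido` with `θ = π/2` or `cv_bul` in `F/Curve.lean`), in general `A0 |ebul d| ≤ elen²/(2π)`.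
* `cyc_shift`: for a bijection `s` of a finite set `K` (`s = es c`, `K = corners c n o`): `∑ (cr (z_k - T_k) (z_{sk} - T_{sk}) - cr (z_k) (z_{sk})) = ∑ (-cr (T_k) (z_{sk} - z_k) - cr (z_k - z_{s k}) (T_{sk}) + cr (T_k) (T_{sk}))`
  after adding `∑ (cr (T_k) (-z_k) + cr (z_{sk}) (-T_{sk}))= 0` (reindexing by `s`): check: `-cr (T_k) (z_{sk}) - cr (z_k) (T_{sk}) = -cr (T_k)(z_{sk} - z_k) - cr (z_k - z_{sk})(T_{sk}) - cr (T_k)(z_k) - cr (z_{sk})(T_{sk})`
  and `∑ (cr (T_k)(z_k) + cr (z_{sk})(T_{sk})) = 0` by antisymmetry and reindexing.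
* `poly_area`: `-A0 tot = (1/2) ∑ cr (zl d) (zl (es c d)) + A0 ∑ ebul d` over `corners c n o` (`sum_edges`, `sum_et_outer`, definition of `ebul`).  For `T_k ≠ 0` both neighbouring outer edges belong to classes in `S`, so `‖z_{sk} - z_k‖ ≤ 3.1`;
  the shift changes the half sum by at most `(1/2)(.155 * 3.1 * 2 + .155²) ≤ .5` per corner; `A0 |ebul| ≤ 1.6` for the small classes and `≤ elen²` for the others.
* `curve3`: `iso_chords` (`Pool/Agent/Helper98/LC/G/Reflect.lean`) with `E = corners c n o`, `s = es c`, `R = ∅` and the paths: if `ar (enb c e) < 2`: `k = 1`, `p 0 = zs e`, `p 1 = zs (es c e)`; otherwise the path `fp` of the edge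
  (private in `C/Face.lean`: copy) which starts at `zl e = zs e` and ends at `zl (es c e) = zs (es c e)` (`dv_notS`).  `∑ parea = (1/2) ∑ cr (zs) (zs ∘ es) + ∑ big, A0 ebul = -A0 tot + (error ≤ (.5 + 1.6) per corner)`.
-/

namespace Pool.Agent.Helper98.LC3

open Finset Real Pool.Agent.Helper98.LC Pool.Agent.Helper38.LC2

variable {ι : Type} [DecidableEq ι]

theorem shift_small [Fintype ι] {G : Net} {c : V → ι} {o : ι} {n : ℕ} {η : ℝ}
    (h : Minimal G c o n η) {d : V × Fin 6} (hd : d ∈ corners c n o) :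
    ‖G.zl d - zs G c n o d‖ ≤ 155 / 1000 := by
  sorry

theorem ev_small [Fintype ι] {G : Net} {c : V → ι} {o : ι} {n : ℕ} {η : ℝ} (hη : 0 ≤ η)
    (hη1 : η ≤ 1 / 10) (h : Minimal G c o n η) {d : V × Fin 6} (hd : d ∈ corners c n o)
    (hs : ar G c n (enb c d) < 2) : elen G c d ≤ 31 / 10 ∧ ‖dv G c n o d‖ ≤ 4 := by
  sorry

theorem cyc_shift {α : Type} [DecidableEq α] (K : Finset α) (s : α → α)
    (hs : Set.BijOn s (K : Set α) (K : Set α)) (z T : α → ℂ) :
    ∑ k ∈ K, (cr (z k - T k) (z (s k) - T (s k)) - cr (z k) (z (s k))) =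
      ∑ k ∈ K, (-cr (T k) (z (s k) - z k) - cr (z k - z (s k)) (T (s k)) +
        cr (T k) (T (s k))) := by
  sorry

theorem poly_area [Fintype ι] {G : Net} {c : V → ι} {o : ι} {n : ℕ} {η : ℝ} (hη : 0 ≤ η)
    (hη1 : η ≤ 1 / 10) (h : Minimal G c o n η) (hl : NoLoop c) :
    |A0 * tot G c o n + (∑ d ∈ corners c n o, cr (zs G c n o d) (zs G c n o (es c d))) / 2| ≤
      3 * (corners c n o).card +
        (∑ d ∈ (corners c n o).filter (fun d => ¬ ar G c n (enb c d) < 2), elen G c d) ^ 2 := by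
  sorry

theorem curve3 [Fintype ι] {G : Net} {c : V → ι} {o : ι} {n : ℕ} {η : ℝ} (hη : 0 ≤ η)
    (hη1 : η ≤ 1 / 10) (h : Minimal G c o n η) (hl : NoLoop c) :
    4 * π * (A0 * tot G c o n - 3 * (corners c n o).card) ≤
      (∑ d ∈ corners c n o, lam3 G c n o d) ^ 2 := by
  sorry

end Pool.Agent.Helper98.LC3
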