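import Pool.Agent.Helper98.LC3.A.SumD
import Pool.Agent.Helper98.LC3.A.Curve
import Pool.Agent.Helper98.LC3.A.Count
import Pool.Agent.Helper98.LC3.P.Coconn
import Pool.Agent.Helper98.LC3.P.NoLoop10

/-!
# LC3-A12: an almost optimal labelling gives an almost optimal global minimiser

`T = tot c₀`, `η = 10/√T` (`≤ 1/10` for `T ≥ 10^4`), `exists_gmin`, `no_loop10`, `coconn` (`η √T ≤ 10`), `t = tot c ≤ T`, `E = ∑ dfi ≥ 0` (`dfi_nonneg`), `Lam = ∑ lam3 ≥ 0`, `Kc = (π/6) √(4π A0) = c0 √(4 π A0) ≤ 3`.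
1. `E + 2 c0 Lam ≤ per2 c - 6 ∑ min` (`sum_dfi`) `= Phi c + η t ≤ Phi c₀ + η t ≤ (2 Kc + ε) √T - η (T - t)`.
2. `curve3`, `count_o`: `4π A0 t ≤ Lam² + 12 π (Lam + 10^6 E)`.  So (with `√(4π A0 t) = √(4π A0) √t`) `2 Kc √t = 2 c0 √(4π A0 t) ≤ 2 c0 (Lam + 6 π + √(12 π 10^6 E)) ≤ 2 c0 Lam + (3/10) E + 5 * 10^7`
   (`Lam² + 12π Lam + X ≤ (Lam + 6π + √X)²`; `√(12π 10^6 E) ≤ E/4 + 12 π 10^6`; `2 c0 ≤ 1.0473`).
3. So `.7 E + 2 Kc √t + η (T - t) ≤ (2 Kc + ε) √T + 5 * 10^7`.  `t = s² T`, `s = √t/√T ∈ [0, 1]`, `η (T - t) = 10 √T (1 - s²)`: `.7 E + √T (1 - s)(10 (1 + s) - 2 Kc) ≤ ε √T + 5 * 10^7`, and `10 (1+s) - 2 Kc ≥ 4`: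
   `E ≤ 1.5 (ε √T + 5 * 10^7)`, `1 - s ≤ (ε + 5 * 10^7/√T)/4`, `t ≥ (1 - 2 (1-s)) T`.
4. `Lam ≤ (2 Kc + ε) √T/(2 c0) = √(4π A0 T) + ε √T/(2 c0)` (from 1., `E ≥ 0`, `t ≤ T`).
`ε = θ/4` (and `≤ 1`), `T0` so large that `5 * 10^7 ≤ (θ/4) √T`, `T0 ≥ 10^4`.
-/

namespace Pool.Agent.Helper98.LC3

open Finset Real Pool.Agent.Helper98.LC Pool.Agent.Helper38.LC2

/-- `π^(3/2) / 12^(1/4)` -/
noncomputable def Kc : ℝ := π / 6 * √(4 * π * A0)

/-- a global minimiser which is almost optimal -/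
structure Almost {ι : Type} [Fintype ι] [DecidableEq ι] (G : Net) (c : V → ι) (o : ι) (n : ℕ)
    (η T θ : ℝ) : Prop where
  η0 : 0 ≤ η
  η1 : η ≤ 1 / 10
  gmin : GMin G c o n η
  noloop : NoLoop c
  coc : ∀ k, k ≠ o → CoConn c k
  tot_le : tot G c o n ≤ T
  tot_ge : (1 - θ) * T ≤ tot G c o n
  dfi_le : ∑ i ∈ univ.filter (fun i => i ≠ o), dfi G c n o i ≤ θ * √T
  lam_le : ∑ d ∈ corners c n o, lam3 G c n o d ≤ (1 + θ) * √(4 * π * A0 * T)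

private theorem an_const : 5 ≤ √(4 * π * A0) ∧ Kc ≤ 3 := by
  have h1 : (3.14 : ℝ) < π := Real.pi_gt_d2
  have h2 : π < 3.1416 := Real.pi_lt_d4
  have h3 : (1.73 : ℝ) ≤ √3 := by
    refine Real.le_sqrt_of_sq_le ?_
    norm_num
  have h4 : √3 ≤ (1.7321 : ℝ) := by
    rw [Real.sqrt_le_left (by norm_num)]
    norm_num
  have h5 : 4 * π * A0 = 6 * (π * √3) := by
    unfold A0
    ring
  have h6 : π * √3 ≤ 3.1416 * 1.7321 :=
    mul_le_mul h2.le h4 (Real.sqrt_nonneg _) (by norm_num)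
  have h7 : 3.14 * 1.73 ≤ π * √3 := mul_le_mul h1.le h3 (by norm_num) (by linarith)
  have h8 : √(4 * π * A0) ≤ 5.72 := by
    rw [Real.sqrt_le_left (by norm_num), h5]
    norm_num at h6 ⊢
    linarith
  refine ⟨?_, ?_⟩
  · refine Real.le_sqrt_of_sq_le ?_
    rw [h5]
    norm_num at h7 ⊢
    linarith
  · unfold Kc
    have h9 : π / 6 * √(4 * π * A0) ≤ 3.1416 / 6 * 5.72 :=
      mul_le_mul (by linarith) h8 (Real.sqrt_nonneg _) (by norm_num)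
    norm_num at h9 ⊢
    linarith

private theorem an_sq {R σ Lam E : ℝ} (hR : 0 ≤ R) (hσ : 0 ≤ σ) (hE : 0 ≤ E) (hL : 0 ≤ Lam)
    (h2 : R ^ 2 * σ ^ 2 ≤ Lam ^ 2 + 12 * π * (Lam + 10 ^ 6 * E)) :
    R * σ ≤ Lam + 6 * π + (E / 4 + 12 * π * 10 ^ 6) := by
  have hp := Real.pi_pos
  set X : ℝ := 12 * π * 10 ^ 6 * E with hX
  have hX0 : 0 ≤ X := by positivity
  have h3 : √X ^ 2 = X := Real.sq_sqrt hX0
  have h4 : 0 ≤ √X := Real.sqrt_nonneg X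
  have h5 : √X ≤ E / 4 + 12 * π * 10 ^ 6 := by
    rw [Real.sqrt_le_left (by positivity)]
    rw [hX]
    nlinarith [sq_nonneg (E / 4 - 12 * π * 10 ^ 6)]
  have h6 : R * σ ≤ Lam + 6 * π + √X := by
    refine le_of_sq_le_sq ?_ (by positivity)
    have e1 : (R * σ) ^ 2 = R ^ 2 * σ ^ 2 := by ring
    have e2 : (Lam + 6 * π + √X) ^ 2 = Lam ^ 2 + 12 * π * Lam + X +
        (36 * π ^ 2 + 2 * Lam * √X + 12 * π * √X) := by
      linear_combination h3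
    have e3 : 0 ≤ 36 * π ^ 2 + 2 * Lam * √X + 12 * π * √X := by positivity
    rw [e1, e2]
    refine h2.trans ?_
    have e4 : 12 * π * (Lam + 10 ^ 6 * E) = 12 * π * Lam + X := by
      rw [hX]
      ring
    rw [e4]
    linarith
  linarith

private theorem an_core {τ σ E Lam θ R : ℝ} (hτ : 100 ≤ τ) (hσ : 0 ≤ σ) (hστ : σ ≤ τ)
    (hE : 0 ≤ E) (hL : 0 ≤ Lam) (hθ : 0 < θ) (hR : 5 ≤ R) (hK : c0 * R ≤ 3)
    (hT : 5 * 10 ^ 7 ≤ θ / 4 * τ)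
    (h1 : E + 2 * c0 * Lam ≤ (2 * (c0 * R) + θ / 4) * τ - 10 / τ * (τ ^ 2 - σ ^ 2))
    (h2 : R ^ 2 * σ ^ 2 ≤ Lam ^ 2 + 12 * π * (Lam + 10 ^ 6 * E)) :
    E ≤ θ * τ ∧ (1 - θ) * τ ^ 2 ≤ σ ^ 2 ∧ Lam ≤ (1 + θ) * (R * τ) := by
  have hp := Real.pi_pos
  have hp1 : (3.14 : ℝ) < π := Real.pi_gt_d2
  have hp2 : π < 3.1416 := Real.pi_lt_d4
  have hc1 : 2 * c0 ≤ 1.0472 := by
    unfold c0
    linarith
  have hc2 : 1.04 ≤ 2 * c0 := by
    unfold c0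
    linarith
  have hτ0 : 0 < τ := by linarith
  have h3 := an_sq (by linarith) hσ hE hL h2
  have h4 : 2 * c0 * (R * σ) ≤ 2 * c0 * Lam + 3 / 10 * E + 5 * 10 ^ 7 := by
    have h5 : 2 * c0 * (R * σ) ≤ 2 * c0 * (Lam + 6 * π + (E / 4 + 12 * π * 10 ^ 6)) :=
      mul_le_mul_of_nonneg_left h3 (by linarith)
    have h6 : 2 * c0 * (6 * π + (E / 4 + 12 * π * 10 ^ 6)) ≤
        1.0472 * (6 * π + (E / 4 + 12 * π * 10 ^ 6)) :=
      mul_le_mul_of_nonneg_right hc1 (by positivity)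
    nlinarith
  have h5 : 10 / τ * (τ ^ 2 - σ ^ 2) = 10 * (τ - σ) * (1 + σ / τ) := by
    field_simp
    ring
  have h6 : 10 * (τ - σ) ≤ 10 / τ * (τ ^ 2 - σ ^ 2) := by
    rw [h5]
    have h7 : 0 ≤ σ / τ := div_nonneg hσ hτ0.le
    have h8 : 0 ≤ τ - σ := by linarith
    nlinarith [mul_nonneg h8 h7]
  have h7 : 7 / 10 * E + 4 * (τ - σ) ≤ θ / 2 * τ := by
    have h8 : 0 ≤ τ - σ := by linarith
    have h9 : 2 * (c0 * R) * (τ - σ) ≤ 6 * (τ - σ) :=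
      mul_le_mul_of_nonneg_right (by linarith) h8
    nlinarith
  refine ⟨?_, ?_, ?_⟩
  · nlinarith
  · have h8 : τ - σ ≤ θ / 8 * τ := by linarith
    have h9 : 2 * τ * (τ - σ) ≤ 2 * τ * (θ / 8 * τ) :=
      mul_le_mul_of_nonneg_left h8 (by linarith)
    nlinarith [sq_nonneg (τ - σ), mul_pos hθ (mul_pos hτ0 hτ0)]
  · have h8 : 2 * c0 * Lam ≤ (2 * (c0 * R) + θ / 4) * τ := by
      have h9 : 0 ≤ 10 * (τ - σ) := by linarith
      linarith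
    have h9 : θ / 4 * τ ≤ 2 * c0 * (θ * (R * τ)) := by
      have h10 : θ * τ * (1 / 4) ≤ θ * τ * (2 * c0 * R) := by
        refine mul_le_mul_of_nonneg_left ?_ (by positivity)
        nlinarith
      nlinarith
    have h10 : 2 * c0 * Lam ≤ 2 * c0 * ((1 + θ) * (R * τ)) := by nlinarith
    exact le_of_mul_le_mul_left h10 (by linarith)

theorem ana (θ : ℝ) (hθ : 0 < θ) : ∃ ε : ℝ, 0 < ε ∧ ∃ T0 : ℝ,
    ∀ (ι : Type) [Fintype ι] [DecidableEq ι] (G : Net) (c₀ : V → ι) (o : ι) (n : ℕ),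
      OutBox c₀ o n → Conn c₀ → T0 ≤ tot G c₀ o n →
      per2 G c₀ n - 6 * ∑ i ∈ univ.filter (fun i => i ≠ o), min 1 (ar G c₀ n i) ≤
        (2 * Kc + ε) * √(tot G c₀ o n) →
      ∃ (c : V → ι) (η : ℝ), Almost G c o n η (tot G c₀ o n) θ := by
  refine ⟨θ / 4, by positivity, max (10 ^ 4) ((5 * 10 ^ 7 / (θ / 4)) ^ 2), ?_⟩
  intro ι _ _ G c₀ o n hout hconn hT0 hmain
  set T : ℝ := tot G c₀ o n with hTdef
  set τ : ℝ := √T with hτdef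
  have hT1 : (10 : ℝ) ^ 4 ≤ T := (le_max_left _ _).trans hT0
  have hT2 : (5 * 10 ^ 7 / (θ / 4)) ^ 2 ≤ T := (le_max_right _ _).trans hT0
  have hTpos : 0 < T := by linarith
  have hτ1 : 100 ≤ τ := by
    refine Real.le_sqrt_of_sq_le ?_
    linarith
  have hτ0 : 0 < τ := by linarith
  have hτ2 : 5 * 10 ^ 7 ≤ θ / 4 * τ := by
    have h := Real.le_sqrt_of_sq_le hT2
    rw [div_le_iff₀ (by positivity)] at h
    linarith
  have hττ : τ ^ 2 = T := Real.sq_sqrt hTpos.le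
  obtain ⟨c, hg, hphi, htot⟩ := exists_gmin G hout hconn (10 / τ)
  have hη0 : 0 ≤ 10 / τ := by positivity
  have hη1 : 10 / τ ≤ 1 / 10 := by
    rw [div_le_div_iff₀ hτ0 (by norm_num)]
    linarith
  have hη2 : 10 / τ * √T ≤ 10 := by
    rw [← hτdef, div_mul_cancel₀ _ hτ0.ne']
  have hmin := gmin_minimal hg
  have hnl := no_loop10 hη0 hη1 hη2 hmin htot
  have hcc : ∀ k, k ≠ o → CoConn c k := fun k hk => coconn hη0 hη1 hη2 hg htot hk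
  have hE : 0 ≤ ∑ i ∈ univ.filter (fun i => i ≠ o), dfi G c n o i := by
    refine sum_nonneg fun i hi => ?_
    exact dfi_nonneg hη0 hη1 hg hnl hcc (mem_filter.1 hi).2
  have hL : 0 ≤ ∑ d ∈ corners c n o, lam3 G c n o d := sum_nonneg fun d _ => lam3_nonneg G c n o d
  have hsum := sum_dfi (G := G) hg.out hg.conn hnl
  have hcurve := curve3 hη0 hη1 hmin hnl
  have hcount := count_o hη0 hη1 hg hnl hcc
  set E : ℝ := ∑ i ∈ univ.filter (fun i => i ≠ o), dfi G c n o i with hEdef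
  set Lam : ℝ := ∑ d ∈ corners c n o, lam3 G c n o d with hLdef
  have ht0 : 0 ≤ tot G c o n := by
    unfold tot
    exact sum_nonneg fun i _ => ar_nonneg G c n i
  have hA0 : 0 < A0 := by
    unfold A0
    positivity
  have hp := Real.pi_pos
  have hRR : √(4 * π * A0) ^ 2 = 4 * π * A0 := Real.sq_sqrt (by positivity)
  have hσσ : √(tot G c o n) ^ 2 = tot G c o n := Real.sq_sqrt ht0
  have hphi1 : ∀ c' : V → ι, Phi G c' o n (10 / τ) = per2 G c' n -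
      6 * ∑ i ∈ univ.filter (fun i => i ≠ o), min 1 (ar G c' n i) - 10 / τ * tot G c' o n := by
    intro c'
    unfold Phi tot
    rw [sum_add_distrib, ← mul_sum, ← mul_sum]
    ring
  rw [hphi1, hphi1, ← hTdef] at hphi
  obtain ⟨hR5, hK3⟩ := an_const
  have hKc : Kc = c0 * √(4 * π * A0) := rfl
  obtain ⟨r1, r2, r3⟩ := an_core (τ := τ) (σ := √(tot G c o n)) (E := E) (Lam := Lam) (θ := θ)
    (R := √(4 * π * A0)) hτ1 (Real.sqrt_nonneg _) (Real.sqrt_le_sqrt htot) hE hL hθ hR5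
    (hKc ▸ hK3) hτ2 (by
      rw [hσσ, hττ, ← hKc]
      have e : 10 / τ * (T - tot G c o n) = 10 / τ * T - 10 / τ * tot G c o n := by ring
      rw [e]
      linarith) (by
      rw [hσσ, hRR]
      have e1 : 4 * π * (A0 * tot G c o n - 3 * ((corners c n o).card : ℝ)) =
        4 * π * A0 * tot G c o n - 12 * π * ((corners c n o).card : ℝ) := by ring
      have e2 : 12 * π * ((corners c n o).card : ℝ) ≤ 12 * π * (Lam + 10 ^ 6 * E) :=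
        mul_le_mul_of_nonneg_left hcount (by positivity)
      rw [e1] at hcurve
      linarith)
  refine ⟨c, 10 / τ, ⟨hη0, hη1, hg, hnl, hcc, htot, ?_, r1, ?_⟩⟩
  · rw [hσσ, hττ] at r2
    exact r2
  · rw [Real.sqrt_mul (by positivity)]
    exact r3

end Pool.Agent.Helper98.LC3
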