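import Pool.Agent.Helper98.LC3.A.Comb

/-!
# LC3-A02: the payments cancel

With `p d = 1` if `InS (enb c d)`, else `0`, `t d = 1` if `InS (c (tip d))`, else `0`: `bal d = 2 p d - t d - p (es c d)` (two cases), `t (es c d) = p d` (`tip_es`).
Sum over `corners c n o` and the bijection `es c` of `corners c n o` (`es_bij`): `∑ t = ∑ t ∘ es = ∑ p`, `∑ p ∘ es = ∑ p`.
-/

namespace Pool.Agent.Helper98.LC3

open Finset Real Pool.Agent.Helper98.LC

variable {ι : Type} [DecidableEq ι]

theorem bal_sum (G : Net) {c : V → ι} {o : ι} {n : ℕ} (h : OutBox c o n) :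
    ∑ d ∈ corners c n o, bal G c n o d = 0 := by
  sorry

end Pool.Agent.Helper98.LC3
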