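import Pool.Agent.Helper98.LC3.A.DfiB
import Pool.Agent.Helper98.LC3.A.DfiS
import Pool.Agent.Helper98.LC3.S.Stab3

/-!
# LC3-A11: the relation between the inner and the shifted outer edges of a boundary class

`δ` from `stab41 γ`; `C' = 10^10 + 10^5/δ`.  `X := ∑ inner ev^(6κ+1) - (-1)^(κ+1) ∑ oc dirn(dv)^(6κ) dv`.
* inner edges: `‖ev‖ ≤ elen ≤ 3`, so `‖ev^(6κ+1)‖ ≤ 3^7 = 2187` (if `‖ev‖ ≤ 3`: `‖ev‖^(6κ+1) ≤ 2187`), `‖dirn‖ ≤ 1`.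
* `InS`: `oc = {e}`, `corners \ oc = {e_1, .., e_4}`; `‖dv (eopp c e)‖ ≤ 4`.  `‖X‖ ≤ 4 * 2187 + 4 ≤ 10^4`.  `dfi_S`: either `10^(-6) ≤ dfi`, then `‖X‖ ≤ 10^10 dfi`; or both ends are regular and `Cen41`, `dfi = 2 sg5` (`dfi_S_reg`):
  `sg5 > δ`: `‖X‖ ≤ 10^4 ≤ 10^4/(2δ) dfi`; `sg5 ≤ δ`: `stab41` with `face41`, `dv = ev e - et0 (ev e_1 + ev e_4)`.
* not `InS`: `‖dv (eopp c e)‖ = echd ≤ elen` (`dv_notS`, `echd_eopp`): `‖X‖ ≤ 2187 card + ∑ oc elen ≤ 2187/(4 * 10^(-6)) dfi` (`dfi_bd`).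
-/

namespace Pool.Agent.Helper98.LC3

open Finset Real Pool.Agent.Helper98.LC Pool.Agent.Helper38 Pool.Agent.Helper38.LC2

theorem bd_M (γ : ℝ) (hγ : 0 < γ) : ∃ C' : ℝ, 1 ≤ C' ∧
    ∀ (ι : Type) [Fintype ι] [DecidableEq ι] (G : Net) (c : V → ι) (o : ι) (n : ℕ) (η : ℝ),
      0 ≤ η → η ≤ 1 / 10 → GMin G c o n η → NoLoop c → (∀ k, k ≠ o → CoConn c k) →
      ∀ i : ι, i ≠ o → (oc c n o i).Nonempty → ∀ κ : ℕ, κ ≤ 1 →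
        ‖∑ d ∈ corners c n i \ oc c n o i, ev G c d ^ (6 * κ + 1) -
          (-1) ^ (κ + 1) * ∑ d ∈ oc c n o i,
            RG.dirn (dv G c n o (eopp c d)) ^ (6 * κ) * dv G c n o (eopp c d)‖ ≤
          γ + C' * dfi G c n o i := by
  sorry

end Pool.Agent.Helper98.LC3
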