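import Pool.Agent.Helper98.LC3.A.Def

/-!
# LC3-A01: combinatorics at the outer corners

For a corner `d = (x, k)`: `next c d = (x, k + 1)` (`next_corner`), `eopp c (eopp c d) = d`.
* `zl_eopp`, `zl_es_eopp`: private lemmas `er_zl_opp`, `er_zl_es_opp` in `Pool/Agent/Helper98/LC/B/EdgeRev.lean` (copy; or: `eopp c d = prev c (rev (es c d))`, `zl (prev ..)`, see there).
* `es_eopp`: private lemma `er_es_opp` in the same file: `es c (eopp c d) = rev (next c d) = (x + dir (k+1), k + 4)`; or from `eopp_eopp`: `d = prev c (rev (es c (eopp c d)))`, so `next c d = rev (es c (eopp c d))` (`next_prev`).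
* `enb_wall`: `enb c e = c (third e)` for a corner `e` (`next_corner`); `e = es c (eopp c d) = (x + dir (k+1), k+4)`: `third e = x + dir (k+1) + dir (k+5) = x + dir k = tip d`.
* `wall_start`: `d = eopp c e`, so `eopp c d = e` and `es c (eopp c d) = es c e`.
* `wall_end`: let `e = es c e'`, `d = eopp c e`, `f = es c d = (x, k)`.  `e = eopp c d = prev c (rev f)`; `rev f = (x + dir k, k + 3)`, its predecessor is `(tip f, k + 2)` because `x + dir k + dir (k+2) = third f` is in another class
  than `tip f` (`f` is a corner).  `eopp c e' = prev c (rev e)`, `rev e = (third f, k + 5)`, `third f + dir (k+4) = x` is in another class than `third f`, so `eopp c e' = (third f, k + 4) = rev (next c f) = es c (eopp c f)`.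
  So `wv G c f = ev G c (es c (eopp c f)) = ev G c (eopp c e') = zl (es c (eopp c e')) - zl (eopp c e') = zl e' - zl (es c e') = - ev G c e'`; `enb c f = c (third f) = c (eopp c e').1 = enb c e'` (`eopp_corner`).
* `tip_es`: `c (tip (es c d)) = enb c d` is `tip_class`.
-/

namespace Pool.Agent.Helper98.LC3

open Finset Real Pool.Agent.Helper98.LC

variable {ι : Type} [DecidableEq ι]

private theorem cb_es {c : V → ι} {o : ι} {n : ℕ} (h : OutBox c o n) {d : V × Fin 6}
    (hd : IsCorner c d) : IsCorner c (es c d) := (emul_spec h hd).2.1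

private theorem cb_enb {c : V → ι} {d : V × Fin 6} (hd : IsCorner c d) :
    enb c d = c (third d) := by
  rw [enb, next_corner c hd]
  rfl

theorem zl_eopp (G : Net) {c : V → ι} {o : ι} {n : ℕ} (h : OutBox c o n) {d : V × Fin 6}
    (hd : IsCorner c d) : G.zl (eopp c d) = G.zl (es c d) := by
  rw [eopp]
  exact zl_prev_rev G c (emul_spec h hd).2.1.1

theorem es_eopp {c : V → ι} {o : ι} {n : ℕ} (h : OutBox c o n) {d : V × Fin 6}
    (hd : IsCorner c d) : es c (eopp c d) = rev (next c d) := by
  have h1 := eopp_eopp h hd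
  rw [eopp] at h1
  have h2 : IsCut c (rev (es c (eopp c d))) :=
    (isCut_rev c _).2 (cb_es h (eopp_corner h hd).1).1
  have h3 := next_prev c h2
  rw [h1] at h3
  rw [h3, rev_rev]

theorem zl_es_eopp (G : Net) {c : V → ι} {o : ι} {n : ℕ} (h : OutBox c o n) {d : V × Fin 6}
    (hd : IsCorner c d) : G.zl (es c (eopp c d)) = G.zl d := by
  rw [es_eopp h hd, zl_rev, zr_next]

theorem ev_eopp (G : Net) {c : V → ι} {o : ι} {n : ℕ} (h : OutBox c o n) {d : V × Fin 6}
    (hd : IsCorner c d) : ev G c (eopp c d) = - ev G c d := by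
  unfold ev
  rw [zl_eopp G h hd, zl_es_eopp G h hd]
  ring

theorem enb_wall {c : V → ι} {o : ι} {n : ℕ} (h : OutBox c o n) {d : V × Fin 6}
    (hd : IsCorner c d) : enb c (es c (eopp c d)) = c (tip d) := by
  rw [cb_enb (cb_es h (eopp_corner h hd).1), es_eopp h hd, next_corner c hd]
  obtain ⟨x, k⟩ := d
  have h3 : ∀ k : Fin 6, dir (k + 1) + dir (k + 1 + 3 + 1) = dir k := by decide
  simp only [third, rev, tip]
  rw [add_assoc x, h3 k]

theorem tip_es {c : V → ι} {o : ι} {n : ℕ} (h : OutBox c o n) {d : V × Fin 6}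
    (hd : IsCorner c d) : c (tip (es c d)) = enb c d :=
  tip_class h hd (emul_spec h hd).1 le_rfl

theorem wall_start (G : Net) {c : V → ι} {o : ι} {n : ℕ} (h : OutBox c o n) {e : V × Fin 6}
    (he : IsCorner c e) : wv G c (eopp c e) = ev G c (es c e) ∧
      c (tip (eopp c e)) = enb c (es c e) := by
  have h1 := eopp_eopp h he
  refine ⟨?_, ?_⟩
  · unfold wv
    rw [h1]
  · rw [← enb_wall h (eopp_corner h he).1, h1]

theorem wall_end (G : Net) {c : V → ι} {o : ι} {n : ℕ} (h : OutBox c o n) {e' : V × Fin 6}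
    (he' : IsCorner c e') : es c (eopp c (es c (eopp c (es c e')))) = eopp c e' ∧
      wv G c (es c (eopp c (es c e'))) = - ev G c e' ∧
      enb c (es c (eopp c (es c e'))) = enb c e' := by
  have he := cb_es h he'
  have hd := (eopp_corner h he).1
  have hf := cb_es h hd
  have h1 : es c e' = prev c (rev (es c (eopp c (es c e')))) := by
    have h2 := eopp_eopp h he
    rw [eopp] at h2
    exact h2.symm
  have h4 : es c (eopp c (es c (eopp c (es c e')))) = rev (next c (es c (eopp c (es c e')))) :=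
    es_eopp h hf
  have h5 : eopp c e' = prev c (rev (es c e')) := rfl
  rw [next_corner c hf] at h4
  generalize es c (eopp c (es c e')) = f at h1 h4 hf ⊢
  obtain ⟨x, k⟩ := f
  have k1 : ∀ k : Fin 6, dir k + dir (k + 3 - 1) = dir (k + 1) := by decide
  have k2 : ∀ k : Fin 6, dir (k + 1) + dir (k + 3 - 1 + 3 - 1) = 0 := by decide
  have k3 : ∀ k : Fin 6, k + 3 - 1 + 3 - 1 = k + 1 + 3 := by decide
  have h6 : es c e' = (x + dir k, k + 3 - 1) := by
    rw [h1]
    have h7 : ¬ c (x + dir k + dir (k + 3 - 1)) = c (x + dir k) := by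
      rw [add_assoc x, k1 k]
      exact hf.2.2
    change (if c (x + dir k + dir (k + 3 - 1)) = c (x + dir k) then _ else _) = _
    rw [if_neg h7]
    rfl
  have h8 : eopp c e' = (x + dir (k + 1), k + 1 + 3) := by
    rw [h5, h6]
    have h9 : ¬ c (x + dir k + dir (k + 3 - 1) + dir (k + 3 - 1 + 3 - 1)) =
        c (x + dir k + dir (k + 3 - 1)) := by
      rw [add_assoc x, k1 k, add_assoc x, k2 k, add_zero]
      exact fun h10 => hf.2.1 h10.symm
    change (if c (x + dir k + dir (k + 3 - 1) + dir (k + 3 - 1 + 3 - 1)) =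
        c (x + dir k + dir (k + 3 - 1)) then _ else
      (x + dir k + dir (k + 3 - 1), k + 3 - 1 + 3 - 1)) = _
    rw [if_neg h9, add_assoc x, k1 k, k3 k]
  have h11 : es c (eopp c (x, k)) = eopp c e' := by
    rw [h4, h8]
    rfl
  refine ⟨h11, ?_, ?_⟩
  · unfold wv
    rw [h11]
    exact ev_eopp G h he'
  · rw [cb_enb hf, ← (eopp_corner h he').2.1, h8]
    rfl

end Pool.Agent.Helper98.LC3
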