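import Pool.Agent.Helper98.LC3.P.Cyc
import Pool.Agent.Helper98.LC3.S.Def

/-!
# Project LC3: assembly, definitions

`o` is the outer class.  A corner `d` of the outer class (`d ∈ corners c n o`) is a point `zl d` where the classes `c (tip d)` and `enb c d` meet; the outer edge `d` goes from `zl d` to `zl (es c d)`
along the class `enb c d = c (tip (es c d))`.  Seen from the bounded class it is the edge `eopp c d`, from `zl (es c d)` to `zl d`; the next edge of this class, `es c (eopp c d)`, is the wall at `zl d`.
-/

namespace Pool.Agent.Helper98.LC3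

open Finset Real Pool.Agent.Helper98.LC

variable {ι : Type} [DecidableEq ι]

/-- the outer edges of a class -/
noncomputable def oc (c : V → ι) (n : ℕ) (o i : ι) : Finset (V × Fin 6) :=
  (corners c n i).filter fun d => enb c d = o

/-- the classes with the sharp inequality: five edges, one of them outer, small area -/
def InS (G : Net) (c : V → ι) (n : ℕ) (o i : ι) : Prop :=
  i ≠ o ∧ (corners c n i).card = 5 ∧ (oc c n o i).card = 1 ∧ ar G c n i < 2

/-- both bounded classes at the corner `d` of the outer class are in `S` -/
def Rg (G : Net) (c : V → ι) (n : ℕ) (o : ι) (d : V × Fin 6) : Prop :=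
  InS G c n o (c (tip d)) ∧ InS G c n o (enb c d)

/-- the chord of an edge -/
noncomputable def ev (G : Net) (c : V → ι) (d : V × Fin 6) : ℂ := G.zl (es c d) - G.zl d

/-- the wall at the corner `d` of the outer class, pointing inwards -/
noncomputable def wv (G : Net) (c : V → ι) (d : V × Fin 6) : ℂ := ev G c (es c (eopp c d))

open Classical in
/-- the shifted corner of the outer class -/
noncomputable def zs (G : Net) (c : V → ι) (n : ℕ) (o : ι) (d : V × Fin 6) : ℂ :=
  G.zl d - if Rg G c n o d then (et0 : ℂ) * wv G c d else 0

/-- the shifted chord of the outer edge `d`, in the direction seen from the bounded class -/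
noncomputable def dv (G : Net) (c : V → ι) (n : ℕ) (o : ι) (d : V × Fin 6) : ℂ :=
  zs G c n o d - zs G c n o (es c d)

/-- the length of the shifted chord, or of the edge if the class is large -/
noncomputable def lam3 (G : Net) (c : V → ι) (n : ℕ) (o : ι) (d : V × Fin 6) : ℝ :=
  if ar G c n (enb c d) < 2 then ‖dv G c n o d‖ else elen G c d

open Classical in
/-- what the class `enb c d` receives at the two ends of the outer edge `d` -/
noncomputable def bal (G : Net) (c : V → ι) (n : ℕ) (o : ι) (d : V × Fin 6) : ℝ :=
  if InS G c n o (enb c d) then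
    (if InS G c n o (c (tip d)) then 0 else 1) + (if InS G c n o (enb c (es c d)) then 0 else 1)
  else
    -((if InS G c n o (c (tip d)) then 1 else 0) + (if InS G c n o (enb c (es c d)) then 1 else 0))

/-- the price of a corner -/
noncomputable def e0 : ℝ := 142 / 1000

/-- the payment -/
noncomputable def pay : ℝ := 7 / 1000 + 1 / 10 ^ 6

open Classical in
/-- the deficit of a class -/
noncomputable def dfi (G : Net) (c : V → ι) (n : ℕ) (o i : ι) : ℝ :=
  if ∃ x, c x = i then
    ∑ d ∈ corners c n i, elen G c d + ∑ d ∈ oc c n o i, elen G c d +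
      3 * ∑ d ∈ corners c n i \ oc c n o i, ebul G c d - 6 * min 1 (ar G c n i) -
      e0 * (6 - ((corners c n i).card : ℝ) - ((oc c n o i).card : ℝ)) -
      2 * c0 * ∑ d ∈ oc c n o i, lam3 G c n o (eopp c d) +
      pay * ∑ d ∈ oc c n o i, bal G c n o (eopp c d)
  else 0

end Pool.Agent.Helper98.LC3
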