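import Pool.Agent.Helper98.LC3.A.Wall52
import Pool.Agent.Helper98.LC3.S.Const
import Pool.Agent.Helper98.LC.C.Conseq
import Pool.Agent.Helper98.LC.C.NoLoop2
import Pool.Agent.Helper38.LC2.Face
import Pool.Agent.Helper38.LC3.Bdry
import Pool.Agent.Helper38.LC3.Strip2
import Pool.Agent.Helper38.LC3.Inter0

/-!
# LC3-A08: the deficits of the other classes

`F = corners i`, `O = oc i`, `a = ar i`, `faceFacts2`; `ar_pos`, `two_le_card'`, `two_outer_le`, `elen_le_inner`, `elen_le_outer`.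
* `dv_notS`: `¬ InS (enb c d)`: `Rg d`, `Rg (es c d)` are false (`tip_es`), so `dv d = zl d - zl (es c d)`, `‖dv d‖ = echd d`.
* `oc_len`: `sum_edges h hl i (fun d => if c (tip d) = o then G.w d else 0)`: for `d ∈ oc` every dart of the edge has `c (tip ..) = enb c d = o` (`tip_class`), for `d ∉ oc` none; the right side is `cut i o`.
  `h.outer`: `2 cut i o < 6 min 1 a + η a`.
* `dfi_bd`: `P = ∑ oc, ([InS (tip)] + [InS (enb ..)]) = - ∑ oc, bal` (`¬ InS i`), `0 ≤ P ≤ 2 O.card`, `P ≤ 2` if `F.card = 5`, `O.card = 2` (`pay52`).  `lam3 (eopp c e) = if a < 2 then echd e else elen e` (`echd_eopp`, `elen_eopp`, `enb c (eopp c e) = i`).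
  If not (`F.card = 4`, `O.card = 2`, `a < 2`): `bdry0` with `e = 142/1000`, `pay = 7/1000 P`; `2 c0 ≤ 2 * .5236`; `dfi ≥ 10^(-5) (..) - 10^(-6) P`, `P ≤ 2 O.card ≤ F.card`.
  Otherwise `bdry22p` (`oc_len`): `dfi ≥ .032 - 4 pay ≥ .0039 ≥ 4/10^6 * (4 + √2 + 3.2)` (`π/3 = 2 c0`, `e0 * 0 = 0`, `P ≤ 4`).
* `dfi_in`: `oc = ∅`: `interior0`, `interior6`.
-/

namespace Pool.Agent.Helper98.LC3

open Finset Real Pool.Agent.Helper98.LC Pool.Agent.Helper38.LC2

variable {ι : Type} [DecidableEq ι]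

theorem dv_notS {G : Net} {c : V → ι} {o : ι} {n : ℕ} (h : OutBox c o n) {d : V × Fin 6}
    (hd : IsCorner c d) (hS : ¬ InS G c n o (enb c d)) :
    zs G c n o d = G.zl d ∧ zs G c n o (es c d) = G.zl (es c d) ∧
      ‖dv G c n o d‖ = echd G c d := by
  have h1 : ¬ Rg G c n o d := fun h2 => hS h2.2
  have h2 : ¬ Rg G c n o (es c d) := by
    intro h3
    have h4 := h3.1
    rw [tip_es h hd] at h4
    exact hS h4
  have e1 : zs G c n o d = G.zl d := by
    unfold zs
    rw [if_neg h1, sub_zero]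
  have e2 : zs G c n o (es c d) = G.zl (es c d) := by
    unfold zs
    rw [if_neg h2, sub_zero]
  refine ⟨e1, e2, ?_⟩
  unfold dv echd
  rw [e1, e2, norm_sub_rev]

theorem oc_len [Fintype ι] {G : Net} {c : V → ι} {o : ι} {n : ℕ} {η : ℝ} (hη : 0 ≤ η)
    (hη1 : η ≤ 1 / 10) (h : Minimal G c o n η) (hl : NoLoop c) {i : ι} (hi : i ≠ o)
    (hne : (oc c n o i).Nonempty) :
    ∑ e ∈ oc c n o i, elen G c e ≤ 3 * min 1 (ar G c n i) + ar G c n i / 20 := by
  have hsum := sum_edges h.out hl i (fun d => if c (tip d) = o then G.w d else 0)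
  have hcut : ∑ d ∈ (darts c n).filter (fun d => c d.1 = i), (if c (tip d) = o then G.w d else 0) =
      cut G c n i o := by
    unfold cut
    rw [← Finset.sum_filter, Finset.filter_filter]
  have hleft : ∑ d ∈ corners c n i, ∑ j ∈ Icc 1 (emul c d),
      (if c (tip (edart c d j)) = o then G.w (edart c d j) else 0) =
      ∑ e ∈ oc c n o i, elen G c e := by
    unfold oc
    rw [Finset.sum_filter]
    refine Finset.sum_congr rfl fun d hd => ?_
    have hd' := (mem_corners h.out i d).1 hd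
    by_cases hE : enb c d = o
    · rw [if_pos hE]
      unfold elen
      refine Finset.sum_congr rfl fun j hj => ?_
      have hj' := Finset.mem_Icc.1 hj
      rw [if_pos]
      rw [tip_class h.out hd'.1 hj'.1 hj'.2]
      exact hE
    · rw [if_neg hE]
      refine Finset.sum_eq_zero fun j hj => ?_
      have hj' := Finset.mem_Icc.1 hj
      rw [if_neg]
      rw [tip_class h.out hd'.1 hj'.1 hj'.2]
      exact hE
  obtain ⟨e, he⟩ := hne
  have he2 : e ∈ corners c n i ∧ enb c e = o := by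
    unfold oc at he
    exact Finset.mem_filter.1 he
  have hc1 := (mem_corners h.out i e).1 he2.1
  have hc2 := (mem_corners h.out i _).1 (es_mem h.out he2.1)
  have ht : Touch c i o := ⟨es c e, hc2.1.1, hc2.2, by rw [tip_es h.out hc1.1]; exact he2.2⟩
  have hlt := h.outer i hi ht
  have ha := ar_nonneg G c n i
  have key : ∑ e ∈ oc c n o i, elen G c e = cut G c n i o := by
    rw [← hleft, ← hcut, ← hsum]
  have hη2 : η * ar G c n i ≤ 1 / 10 * ar G c n i := by gcongr
  linarith

private theorem db_ch_nonneg (G : Net) (c : V → ι) (d : V × Fin 6) : 0 ≤ echd G c d := norm_nonneg _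

private theorem db_w_nonneg (G : Net) (d : V × Fin 6) : 0 ≤ G.w d := by
  unfold Net.w
  positivity

private theorem db_len_nonneg (G : Net) (c : V → ι) (d : V × Fin 6) : 0 ≤ elen G c d :=
  Finset.sum_nonneg fun _ _ => db_w_nonneg G _

private theorem db_oc {c : V → ι} {n : ℕ} {o i : ι} {e : V × Fin 6} :
    e ∈ oc c n o i ↔ e ∈ corners c n i ∧ enb c e = o := by
  unfold oc
  exact Finset.mem_filter

private theorem db_lam {G : Net} {c : V → ι} {o : ι} {n : ℕ} (h : OutBox c o n) {i : ι}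
    (hS : ¬ InS G c n o i) {d : V × Fin 6} (hd : d ∈ oc c n o i) :
    lam3 G c n o (eopp c d) = if ar G c n i < 2 then echd G c d else elen G c d := by
  have h1 := (mem_corners h i d).1 (db_oc.1 hd).1
  have h2 := eopp_corner h h1.1
  have h3 : enb c (eopp c d) = i := h2.2.2.1.trans h1.2
  have h4 := dv_notS (G := G) h h2.1 (by rw [h3]; exact hS)
  unfold lam3
  rw [h3, h4.2.2, echd_eopp G h h1.1, elen_eopp G h h1.1]

open Classical in
private noncomputable def dbp (G : Net) (c : V → ι) (n : ℕ) (o : ι) (e : V × Fin 6) : ℝ :=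
  (if InS G c n o (c (tip (eopp c e))) then 1 else 0) +
      (if InS G c n o (enb c (es c (eopp c e))) then 1 else 0)

private theorem dbp_nonneg (G : Net) (c : V → ι) (n : ℕ) (o : ι) (e : V × Fin 6) :
    0 ≤ dbp G c n o e := by
  unfold dbp
  split_ifs <;> norm_num

private theorem dbp_le (G : Net) (c : V → ι) (n : ℕ) (o : ι) (e : V × Fin 6) :
    dbp G c n o e ≤ 2 := by
  unfold dbp
  split_ifs <;> norm_num

private theorem dbp_52 [Fintype ι] {G : Net} {c : V → ι} {o : ι} {n : ℕ} (h : OutBox c o n)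
    (hc : Conn c) (hcc : ∀ k, k ≠ o → CoConn c k) {i : ι} (hi : i ≠ o)
    (h5 : (corners c n i).card = 5) (h2 : (oc c n o i).card = 2) :
    ∑ e ∈ oc c n o i, dbp G c n o e ≤ 2 := pay52 h hc hcc hi h5 h2

private theorem db_bal {G : Net} {c : V → ι} {o : ι} {n : ℕ} (h : OutBox c o n) {i : ι}
    (hS : ¬ InS G c n o i) {d : V × Fin 6} (hd : d ∈ oc c n o i) :
    bal G c n o (eopp c d) = -dbp G c n o d := by
  have h1 := (mem_corners h i d).1 (db_oc.1 hd).1
  have h2 := eopp_corner h h1.1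
  have h3 : enb c (eopp c d) = i := h2.2.2.1.trans h1.2
  unfold bal dbp
  rw [h3, if_neg hS]

theorem dfi_bd [Fintype ι] {G : Net} {c : V → ι} {o : ι} {n : ℕ} {η : ℝ} (hη : 0 ≤ η)
    (hη1 : η ≤ 1 / 10) (h : GMin G c o n η) (hl : NoLoop c) (hcc : ∀ k, k ≠ o → CoConn c k)
    {i : ι} (hi : i ≠ o) (hx : ∃ x, c x = i) (hne : (oc c n o i).Nonempty)
    (hS : ¬ InS G c n o i) :
    4 / 10 ^ 6 * (((corners c n i).card : ℝ) + √(ar G c n i) + ∑ e ∈ oc c n o i, elen G c e) ≤
      dfi G c n o i := by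
  have hm := gmin_minimal h
  have hF := faceFacts2 G h.out hl hi
  have ha := ar_pos hm hi hx
  have hO : oc c n o i ⊆ corners c n i := Finset.filter_subset _ _
  have hO1 : 1 ≤ (oc c n o i).card := hne.card_pos
  have hO2 : 2 * (oc c n o i).card ≤ (corners c n i).card := two_outer_le h.out i
  have hin : ∀ e ∈ corners c n i \ oc c n o i, elen G c e ≤ 3 * min 1 (ar G c n i) := by
    intro e he
    have he' := Finset.mem_sdiff.1 he
    exact elen_le_inner hm hi he'.1 fun h1 => he'.2 (db_oc.2 ⟨he'.1, h1⟩)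
  have hout : ∀ e ∈ oc c n o i, elen G c e ≤ 3 * min 1 (ar G c n i) + ar G c n i / 20 := by
    intro e he
    have he' := db_oc.1 he
    have h1 := elen_le_outer hm hi he'.1 he'.2
    have h2 : η * ar G c n i ≤ 1 / 10 * ar G c n i := by gcongr
    linarith
  have hsum := oc_len hη hη1 hm hl hi hne
  have hlam : ∑ d ∈ oc c n o i, lam3 G c n o (eopp c d) =
      ∑ e ∈ oc c n o i, (if ar G c n i < 2 then echd G c e else elen G c e) :=
    Finset.sum_congr rfl fun d hd => db_lam h.out hS hd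
  obtain ⟨P, hP⟩ : ∃ P : ℝ, P = ∑ e ∈ oc c n o i, dbp G c n o e := ⟨_, rfl⟩
  have hbal : ∑ d ∈ oc c n o i, bal G c n o (eopp c d) = -P := by
    rw [hP, ← Finset.sum_neg_distrib]
    exact Finset.sum_congr rfl fun d hd => db_bal h.out hS hd
  have hP0 : 0 ≤ P := by
    rw [hP]
    exact Finset.sum_nonneg fun d _ => dbp_nonneg G c n o d
  have hP2 : P ≤ 2 * ((oc c n o i).card : ℝ) := by
    rw [hP, mul_comm, ← nsmul_eq_mul, ← Finset.sum_const]
    exact Finset.sum_le_sum fun d _ => dbp_le G c n o d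
  have hP5 : (corners c n i).card = 5 → (oc c n o i).card = 2 → P ≤ 2 := by
    intro h5 h2
    rw [hP]
    exact dbp_52 h.out h.conn hcc hi h5 h2
  have hO2' : 2 * ((oc c n o i).card : ℝ) ≤ ((corners c n i).card : ℝ) := by exact_mod_cast hO2
  have hlam0 : 0 ≤ ∑ e ∈ oc c n o i, (if ar G c n i < 2 then echd G c e else elen G c e) := by
    refine Finset.sum_nonneg fun e _ => ?_
    split_ifs
    · exact db_ch_nonneg G c e
    · exact db_len_nonneg G c e
  have hlen0 : 0 ≤ ∑ e ∈ oc c n o i, elen G c e :=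
    Finset.sum_nonneg fun e _ => db_len_nonneg G c e
  have hsq0 : 0 ≤ √(ar G c n i) := Real.sqrt_nonneg _
  have hc0 := c0_num
  unfold dfi
  rw [if_pos hx, hlam, hbal]
  unfold e0 pay
  by_cases h22 : (corners c n i).card = 4 ∧ (oc c n o i).card = 2 ∧ ar G c n i < 2
  · obtain ⟨hF4, hO2c, ha2⟩ := h22
    have hb := Pool.Agent.Helper38.LC3.bdry22p hF ha ha2 (oc c n o i) hO hO2c hF4 hin hsum
    have hpi : π / 3 = 2 * c0 := by unfold c0; ring
    rw [hpi] at hb
    have hl2 : ∑ e ∈ oc c n o i, (if ar G c n i < 2 then echd G c e else elen G c e) =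
        ∑ e ∈ oc c n o i, echd G c e :=
      Finset.sum_congr rfl fun e _ => by rw [if_pos ha2]
    rw [hl2, hF4, hO2c]
    rw [hO2c] at hP2
    have hmin : min 1 (ar G c n i) ≤ 1 := min_le_left _ _
    have hsq : √(ar G c n i) ≤ 2 := by
      rw [Real.sqrt_le_left (by norm_num)]
      linarith
    push_cast at hP2 ⊢
    linarith
  · have h41 : ¬ ((corners c n i).card = 5 ∧ (oc c n o i).card = 1 ∧ ar G c n i < 2) :=
      fun h1 => hS ⟨hi, h1⟩
    have hb := Pool.Agent.Helper38.LC3.bdry0 hF ha (oc c n o i) hO hO1 hO2 hin hout h41 h22 (e := 142 / 1000)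
      (pay := 7 / 1000 * P) (by norm_num) (by norm_num) (by linarith) (fun h5 h2 => by
        have := hP5 h5 h2
        linarith)
    have hmul : 2 * c0 * ∑ e ∈ oc c n o i, (if ar G c n i < 2 then echd G c e else elen G c e) ≤
        2 * (5236 / 10000) *
          ∑ e ∈ oc c n o i, (if ar G c n i < 2 then echd G c e else elen G c e) := by
      gcongr
      linarith [hc0.2]
    linarith

theorem dfi_in [Fintype ι] {G : Net} {c : V → ι} {o : ι} {n : ℕ} {η : ℝ} (hη : 0 ≤ η)
    (hη1 : η ≤ 1 / 10) (h : GMin G c o n η) (hl : NoLoop c)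
    {i : ι} (hi : i ≠ o) (hx : ∃ x, c x = i) (hne : oc c n o i = ∅)
    (h6 : (corners c n i).card ≠ 6) :
    4 / 10 ^ 6 * (((corners c n i).card : ℝ) + √(ar G c n i)) ≤ dfi G c n o i := by
  have hm := gmin_minimal h
  have hF := faceFacts2 G h.out hl hi
  have ha := ar_pos hm hi hx
  have h2 := two_le_card' h.out hl hi hx
  have hin : ∀ e ∈ corners c n i, elen G c e ≤ 3 * min 1 (ar G c n i) := by
    intro e he
    refine elen_le_inner hm hi he fun h1 => ?_
    have h3 : e ∈ oc c n o i := db_oc.2 ⟨he, h1⟩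
    rw [hne] at h3
    exact absurd h3 (Finset.notMem_empty e)
  have hb := Pool.Agent.Helper38.LC3.interior0 hF ha h2 h6 hin (e := 142 / 1000) (by norm_num) (by norm_num)
  have hsq0 : 0 ≤ √(ar G c n i) := Real.sqrt_nonneg _
  have hF0 : (0 : ℝ) ≤ ((corners c n i).card : ℝ) := Nat.cast_nonneg _
  unfold dfi
  rw [if_pos hx, hne]
  simp only [Finset.sum_empty, Finset.sdiff_empty, Finset.card_empty, Nat.cast_zero]
  unfold e0
  linarith

theorem dfi_six [Fintype ι] {G : Net} {c : V → ι} {o : ι} {n : ℕ} {η : ℝ} (hη : 0 ≤ η)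
    (hη1 : η ≤ 1 / 10) (h : GMin G c o n η) (hl : NoLoop c)
    {i : ι} (hi : i ≠ o) (hx : ∃ x, c x = i) (hne : oc c n o i = ∅)
    (h6 : (corners c n i).card = 6) :
    dfi G c n o i = ∑ d ∈ corners c n i, elen G c d + 3 * ∑ d ∈ corners c n i, ebul G c d -
      6 * min 1 (ar G c n i) ∧
    (if 8 ≤ ar G c n i then 1 / 100000 * √(ar G c n i) else 0) ≤ dfi G c n o i := by
  have hm := gmin_minimal h
  have hF := faceFacts2 G h.out hl hi
  have ha := ar_pos hm hi hx
  have hin : ∀ e ∈ corners c n i, elen G c e ≤ 3 * min 1 (ar G c n i) := by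
    intro e he
    refine elen_le_inner hm hi he fun h1 => ?_
    have h3 : e ∈ oc c n o i := db_oc.2 ⟨he, h1⟩
    rw [hne] at h3
    exact absurd h3 (Finset.notMem_empty e)
  have hb := Pool.Agent.Helper38.LC3.interior6 hF ha h6 hin
  have e1 : dfi G c n o i = ∑ d ∈ corners c n i, elen G c d + 3 * ∑ d ∈ corners c n i, ebul G c d -
      6 * min 1 (ar G c n i) := by
    unfold dfi
    rw [if_pos hx, hne, h6]
    simp only [Finset.sum_empty, Finset.sdiff_empty, Finset.card_empty, Nat.cast_zero]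
    push_cast
    ring
  refine ⟨e1, ?_⟩
  rw [e1]
  linarith

end Pool.Agent.Helper98.LC3
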