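import Pool.Agent.Helper98.LC3.A.Poly
import Pool.Agent.Helper98.LC3.P.Gmin
import Pool.Agent.Helper98.LC.C.Conseq

/-!
# LC3-A05: a class in `S` gives the data `Face41`

`e` the corner of the outer edge, `e_m = (es c)^[m] e`, `m < 5`; `e_5 = e` (`es_card`).  `coconn` is applied by the caller (`hco`).
* `pos`: `ar_pos`; `lt`: `InS`; `sum`: telescoping, `zl e_5 = zl e_0`;
* `EdgeOK`: `le`: `echd ≤ elen`, `dido`: both from `faceFacts2`;  `echd G c d = ‖ev G c d‖` by definition.
* `area`: `area_eq`, `iter_sum`: `(1/2) ∑ cr (zl e_m) (zl e_{m+1}) = pent (ev e_0) (ev e_1) (ev e_2) (ev e_3)` (shift the origin to `zl e_0`; `ring`-identity for the five points, `e_5 = e_0`).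
* `iso`: `faceFacts` (`refl` with `R = ∅`), `iter_sum`.
* caps: `elen_le_outer` (`η/2 ≤ 1/20`), `elen_le_inner`: `enb c e_m ≠ o` for `m = 1..4` because `oc` has one element and `e_m ≠ e` (`es_card`).
-/

namespace Pool.Agent.Helper98.LC3

open Finset Real Pool.Agent.Helper98.LC Pool.Agent.Helper38.LC2

variable {ι : Type} [DecidableEq ι]

theorem inner_ne {G : Net} {c : V → ι} {o : ι} {n : ℕ} (h : OutBox c o n) (hc : Conn c) {i : ι}
    (hS : InS G c n o i) (hco : CoConn c i) {e : V × Fin 6} (he : e ∈ oc c n o i) {m : ℕ}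
    (h1 : 1 ≤ m) (h4 : m ≤ 4) : enb c ((es c)^[m] e) ≠ o := by
  obtain ⟨hi, h5, hoc, -⟩ := hS
  have hd : e ∈ corners c n i := (mem_filter.1 he).1
  obtain ⟨x, hx⟩ := card_eq_one.1 hoc
  have hex : e = x := by
    rw [hx] at he
    exact mem_singleton.1 he
  intro heq
  have hm : (es c)^[m] e ∈ oc c n o i := mem_filter.2 ⟨iter_mem' h hd m, heq⟩
  rw [hx] at hm
  have h2 : (es c)^[m] e = x := mem_singleton.1 hm
  exact (es_card h hc hi hco hd).2 m (by omega) (by omega) (h2.trans hex.symm)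

private theorem edgeOK_of {G : Net} {c : V → ι} {o : ι} {n : ℕ} (h : OutBox c o n) (hl : NoLoop c)
    {i : ι} (hi : i ≠ o) {d : V × Fin 6} (hd : d ∈ corners c n i) :
    EdgeOK (ev G c d) (elen G c d) (ebul G c d) := by
  have hf := faceFacts2 G h hl hi
  exact ⟨hf.ch_le d hd, fun θ h0 h1 => hf.dido d hd θ h0 h1⟩

theorem face41 [Fintype ι] {G : Net} {c : V → ι} {o : ι} {n : ℕ} {η : ℝ} (hη : 0 ≤ η)
    (hη1 : η ≤ 1 / 10) (h : GMin G c o n η) (hl : NoLoop c) {i : ι} (hx : ∃ x, c x = i)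
    (hS : InS G c n o i) (hco : CoConn c i) {e : V × Fin 6} (he : e ∈ oc c n o i) :
    Face41 (ar G c n i) (ev G c e) (ev G c (es c e)) (ev G c ((es c)^[2] e))
      (ev G c ((es c)^[3] e)) (ev G c ((es c)^[4] e)) (elen G c e) (elen G c (es c e))
      (elen G c ((es c)^[2] e)) (elen G c ((es c)^[3] e)) (elen G c ((es c)^[4] e))
      (ebul G c e) (ebul G c (es c e)) (ebul G c ((es c)^[2] e)) (ebul G c ((es c)^[3] e))
      (ebul G c ((es c)^[4] e)) := by
  have hS' := hS
  obtain ⟨hi, h5, hoc, hlt⟩ := hS'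
  have hd : e ∈ corners c n i := (mem_filter.1 he).1
  have heo : enb c e = o := (mem_filter.1 he).2
  have hM := gmin_minimal h
  have hm : ∀ m : ℕ, (es c)^[m] e ∈ corners c n i := iter_mem' h.out hd
  have hfive : (es c)^[5] e = e := by
    have := (es_card h.out h.conn hi hco hd).1
    rwa [h5] at this
  have hin : ∀ m : ℕ, 1 ≤ m → m ≤ 4 → elen G c ((es c)^[m] e) ≤ 3 * min 1 (ar G c n i) :=
    fun m h1 h4 => elen_le_inner hM hi (hm m) (inner_ne h.out h.conn hS hco he h1 h4)
  have hit : ∀ (m : ℕ) (x : V × Fin 6), (es c)^[m + 1] x = es c ((es c)^[m] x) :=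
    fun m x => Function.iterate_succ_apply' _ _ _
  have hsum : ∀ f : V × Fin 6 → ℝ, ∑ d ∈ corners c n i, f d =
      f e + f (es c e) + f ((es c)^[2] e) + f ((es c)^[3] e) + f ((es c)^[4] e) := by
    intro f
    rw [iter_sum h.out h.conn hi hco hd f, h5]
    simp only [sum_range_succ, sum_range_zero, zero_add, Function.iterate_zero, id_eq,
      Function.iterate_one]
  have ha : 0 < ar G c n i := ar_pos hM hi hx
  have e1 : es c e = (es c)^[1] e := rfl
  have e2 : es c (es c e) = (es c)^[2] e := rfl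
  have e3 : es c ((es c)^[2] e) = (es c)^[3] e := (hit 2 e).symm
  have e4 : es c ((es c)^[3] e) = (es c)^[4] e := (hit 3 e).symm
  have e5 : es c ((es c)^[4] e) = e := (hit 4 e).symm.trans hfive
  refine ⟨ha, hlt, ?_, edgeOK_of h.out hl hi hd, edgeOK_of h.out hl hi (hm 1),
    edgeOK_of h.out hl hi (hm 2), edgeOK_of h.out hl hi (hm 3), edgeOK_of h.out hl hi (hm 4),
    ?_, ?_, ?_, hin 1 le_rfl (by norm_num), hin 2 (by norm_num) (by norm_num),
    hin 3 (by norm_num) (by norm_num), hin 4 (by norm_num) le_rfl⟩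
  · unfold ev
    rw [e2, e3, e4, e5]
    ring
  · rw [area_eq G h.out hl hi, hsum, hsum, e2, e3, e4, e5]
    unfold pent ev
    rw [e2, e3, e4]
    unfold cr
    simp only [Complex.add_re, Complex.sub_re, Complex.add_im, Complex.sub_im]
    ring
  · have h1 := (faceFacts G h.out hl hi).refl ∅ (empty_subset _)
    rw [sum_empty, mul_zero, sub_zero, hsum] at h1
    exact h1
  · have h1 := elen_le_outer hM hi hd heo
    have h2 : η * ar G c n i ≤ 1 / 10 * ar G c n i := mul_le_mul_of_nonneg_right hη1 ha.le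
    linarith

end Pool.Agent.Helper98.LC3
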