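import Pool.Agent.Helper98.LC3.A.Rig
import Pool.Agent.Helper98.LC.Main

/-!
# LC3-A13: the strict lower bound

* `strict_conn`: `rig` gives `θ, T1`; `ana θ` gives `ε, T0`; contraposition with `max T0 T1`.
* `strict_model`: as `model` in `Pool/Agent/Helper98/LC/F/Model.lean` (`exists_comp`): the labelling `c` with connected classes has `per2 c = per2 l`, `∑ min 1 (ar c i) ≥ ∑ min 1 (ar l j)`, `tot c ≥ ∑ ar l j` (all three are shown there);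
  `(2 Kc + ε) √·` is monotone.
* `strict_cluster`: as `cluster_bound` in `Pool/Agent/Helper98/LC/Main.lean` (`approx` for every `δ`): with `T = ∑ ar ≥ N (1 - δ) ≥ T0` for `N ≥ T0 + 1` and small `δ`:
  `6 N (1 - δ) + (2 Kc + ε) √(N (1-δ)) ≤ 2 P + δ` for all small `δ`, so `3 N + (Kc + ε/2) √N ≤ P`.
* `Kc_eq`: `A0 = 3 √3/2`: both sides are positive and have the same fourth power `π^6/12`.
-/

namespace Pool.Agent.Helper98.LC3

open Finset Real Pool.Agent.Helper98.LC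

theorem Kc_eq : Kc = π ^ (3 / 2 : ℝ) / 12 ^ (1 / 4 : ℝ) := by
  sorry

theorem strict_conn : ∃ ε : ℝ, 0 < ε ∧ ∃ T0 : ℝ,
    ∀ (ι : Type) [Fintype ι] [DecidableEq ι] (G : Net) (c₀ : V → ι) (o : ι) (n : ℕ),
      OutBox c₀ o n → Conn c₀ → T0 ≤ tot G c₀ o n →
      (2 * Kc + ε) * √(tot G c₀ o n) ≤
      per2 G c₀ n - 6 * ∑ i ∈ univ.filter (fun i => i ≠ o), min 1 (ar G c₀ n i) := by
  sorry

theorem strict_model : ∃ ε : ℝ, 0 < ε ∧ ∃ T0 : ℝ,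
    ∀ (N : ℕ) (G : Net) (l : V → Fin (N + 1)) (n : ℕ), OutBox l 0 n →
      T0 ≤ ∑ j ∈ univ.filter (fun j : Fin (N + 1) => j ≠ 0), ar G l n j →
      6 * ∑ j ∈ univ.filter (fun j : Fin (N + 1) => j ≠ 0), min 1 (ar G l n j) +
        (2 * Kc + ε) * √(∑ j ∈ univ.filter (fun j : Fin (N + 1) => j ≠ 0), ar G l n j) ≤
        per2 G l n := by
  sorry

theorem strict_cluster : ∃ ε : ℝ, 0 < ε ∧ ∃ N0 : ℕ, ∀ (N : ℕ), N0 ≤ N → ∀ (R : Fin N → Set ℂ),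
    Pool.Agent.Helper79.HC.IsCluster R → Pool.Agent.Helper79.HC.clusterPer R < ⊤ →
    3 * (N : ℝ) + (Kc + ε) * √N ≤ (Pool.Agent.Helper79.HC.clusterPer R).toReal := by
  sorry

theorem strict_lower : ∃ ε : ℝ, 0 < ε ∧ ∃ N0 : ℕ, ∀ N : ℕ, N0 ≤ N →
    ENNReal.ofReal (3 * N + (π ^ (3 / 2 : ℝ) / 12 ^ (1 / 4 : ℝ) + ε) * √N) ≤
      Pool.Agent.Helper79.HC.p N := by
  sorry

end Pool.Agent.Helper98.LC3
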