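import Pool.Agent.Helper98.LC3.A.Comb
import Pool.Agent.Helper98.LC.C.Face
import Pool.Agent.Helper38.LC2.Face

/-!
# LC3-A04: the polygon of a class

* `area_eq`: `A0 * ebul d = ∑ j, et (edart d j) - cr (zl d) (zl (es c d))/2` (definition of `ebul`), sum over the corners; `∑ d ∈ corners i, ∑ j, et = ∑ darts of i, et` (`sum_edges`) `= ∑ al` (`sum_et_class`) `= A0 * ar`.
* `iter_sum`: `corners_eq` (injective image of `range (card)`).
* `iter_mem`: `es_mem`.
-/

namespace Pool.Agent.Helper98.LC3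

open Finset Real Pool.Agent.Helper98.LC Pool.Agent.Helper38.LC2

variable {ι : Type} [DecidableEq ι]

theorem area_eq (G : Net) {c : V → ι} {o : ι} {n : ℕ} (h : OutBox c o n) (hl : NoLoop c) {i : ι}
    (hi : i ≠ o) : A0 * ar G c n i = (∑ d ∈ corners c n i, cr (G.zl d) (G.zl (es c d))) / 2 +
      A0 * ∑ d ∈ corners c n i, ebul G c d := by
  have hA : A0 ≠ 0 := by
    unfold A0
    positivity
  have h1 : A0 * ar G c n i = ∑ d ∈ corners c n i, ∑ j ∈ Icc 1 (emul c d), G.et (edart c d j) := by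
    rw [sum_edges h hl i, sum_et_class G h hi]
    unfold ar
    rw [mul_div_cancel₀ _ hA]
  have h2 : A0 * ∑ d ∈ corners c n i, ebul G c d =
      ∑ d ∈ corners c n i, (∑ j ∈ Icc 1 (emul c d), G.et (edart c d j) -
        cr (G.zl d) (G.zl (es c d)) / 2) := by
    rw [mul_sum]
    refine sum_congr rfl fun d _ => ?_
    unfold ebul
    rw [mul_div_cancel₀ _ hA]
  rw [h1, h2, sum_sub_distrib, sum_div]
  ring

theorem iter_mem' {c : V → ι} {o : ι} {n : ℕ} (h : OutBox c o n) {i : ι} {d : V × Fin 6}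
    (hd : d ∈ corners c n i) (m : ℕ) : (es c)^[m] d ∈ corners c n i := by
  induction m with
  | zero => exact hd
  | succ m ih =>
    rw [Function.iterate_succ_apply']
    exact es_mem h ih

theorem iter_sum {c : V → ι} {o : ι} {n : ℕ} (h : OutBox c o n) (hc : Conn c) {i : ι}
    (hi : i ≠ o) (hco : CoConn c i) {d : V × Fin 6} (hd : d ∈ corners c n i)
    (f : V × Fin 6 → ℝ) :
    ∑ e ∈ corners c n i, f e = ∑ m ∈ range (corners c n i).card, f ((es c)^[m] d) := by
  obtain ⟨heq, hinj⟩ := corners_eq h hc hi hco hd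
  conv_lhs => rw [heq]
  exact sum_image hinj

end Pool.Agent.Helper98.LC3
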