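import Pool.Agent.Helper98.LC3.A.Ana

/-!
# LC3: interface to the R block of helper38

To be proved by helper38 (rigidity); do not start.
-/

namespace Pool.Agent.Helper98.LC3

open Finset Real Pool.Agent.Helper98.LC

theorem rig : ∃ θ : ℝ, 0 < θ ∧ ∃ T1 : ℝ,
    ∀ (ι : Type) [Fintype ι] [DecidableEq ι] (G : Net) (c : V → ι) (o : ι) (n : ℕ) (η T : ℝ),
      T1 ≤ T → Almost G c o n η T θ → False := by
  sorry

end Pool.Agent.Helper98.LC3
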