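import Pool.Agent.Helper98.LC3.A.Bal
import Pool.Agent.Helper98.LC3.P.Gmin
import Pool.Agent.Helper98.LC.F.Sum

/-!
# LC3-A03: the sum of the deficits

Compare `sum_local` in `Pool/Agent/Helper98/LC/F/Sum.lean`.  Empty classes: no corners, `ar = 0`, `min 1 0 = 0` (private lemma `sl_empty` there).
`∑ i ≠ o, (∑ corners, elen + ∑ oc, elen) = per2` (`per2_edges`, `sum_outer` for `elen`, `elen_eopp`), `∑ i ≠ o, ∑ corners \ oc, ebul = 0` (`sum_inner_zero`),
`∑ i ≠ o, ∑ oc, lam3 (eopp c d) = ∑ corners o, lam3`, `∑ i ≠ o, ∑ oc, bal (eopp c d) = ∑ corners o, bal = 0` (`sum_outer`, `bal_sum`),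
`∑ (6 - card corners - card oc) ≥ 6 ≥ 0` over the nonempty classes (`euler`, `card_outer`; if all classes other than `o` are empty, everything is `0`), `e0 ≥ 0`.
-/

namespace Pool.Agent.Helper98.LC3

open Finset Real Pool.Agent.Helper98.LC

variable {ι : Type} [DecidableEq ι]

private theorem h86_sd_empty (G : Net) {c : V → ι} {n : ℕ} {i : ι} (hx : ¬ ∃ x, c x = i) :
    ar G c n i = 0 ∧ corners c n i = ∅ := by
  constructor
  · unfold ar
    have h1 : (box n).filter (fun x => c x = i) = ∅ := by
      apply filter_eq_empty_iff.mpr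
      intro x _ hx'
      exact hx ⟨x, hx'⟩
    rw [h1, sum_empty, zero_div]
  · apply filter_eq_empty_iff.mpr
    intro d _ hd
    exact hx ⟨d.1, hd.2⟩

open Classical in
private theorem h86_sd_dfi (G : Net) (c : V → ι) (n : ℕ) (o i : ι) :
    dfi G c n o i =
      ∑ d ∈ corners c n i, elen G c d +
        ∑ d ∈ (corners c n i).filter (fun d => enb c d = o), elen G c d +
        3 * ∑ d ∈ corners c n i \ (corners c n i).filter (fun d => enb c d = o), ebul G c d -
        6 * min 1 (ar G c n i) -
        e0 * ((if ∃ x, c x = i then (6 - ((corners c n i).card : ℝ)) else 0) -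
          (((corners c n i).filter (fun d => enb c d = o)).card : ℝ)) -
        2 * c0 * ∑ d ∈ (corners c n i).filter (fun d => enb c d = o), lam3 G c n o (eopp c d) +
        pay * ∑ d ∈ (corners c n i).filter (fun d => enb c d = o), bal G c n o (eopp c d) := by
  unfold dfi
  by_cases hx : ∃ x, c x = i
  · rw [if_pos hx, if_pos hx]
    rfl
  · obtain ⟨h1, h2⟩ := h86_sd_empty G (n := n) hx
    rw [if_neg hx, if_neg hx, h1, h2]
    simp

theorem sum_dfi [Fintype ι] {G : Net} {c : V → ι} {o : ι} {n : ℕ} (h : OutBox c o n)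
    (hc : Conn c) (hl : NoLoop c) :
    ∑ i ∈ univ.filter (fun i => i ≠ o), dfi G c n o i +
      2 * c0 * ∑ d ∈ corners c n o, lam3 G c n o d +
      6 * ∑ i ∈ univ.filter (fun i => i ≠ o), min 1 (ar G c n i) ≤ per2 G c n := by
  classical
  rw [sum_congr rfl fun i _ => h86_sd_dfi G c n o i]
  simp only [sum_add_distrib, ← mul_sum, sum_sub_distrib]
  have e1 := sum_inner_zero G h
  have e2 := sum_outer h (lam3 G c n o)
  have e2' := sum_outer h (bal G c n o)
  have e3 : ∑ i ∈ univ.filter (fun i => i ≠ o),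
      ∑ d ∈ (corners c n i).filter (fun d => enb c d = o), elen G c d =
      ∑ d ∈ corners c n o, elen G c d := by
    rw [← sum_outer h (elen G c)]
    refine sum_congr rfl fun i _ => sum_congr rfl fun d hd => ?_
    rw [elen_eopp G h ((mem_corners h i d).1 (mem_filter.1 hd).1).1]
  have e4 := per2_edges G h hl
  have e5 : ∑ i ∈ univ.filter (fun i => i ≠ o),
      (((corners c n i).filter (fun d => enb c d = o)).card : ℝ) = ((corners c n o).card : ℝ) := by
    rw [← Nat.cast_sum, card_outer h]
  have e6 : 0 ≤ ∑ i ∈ univ.filter (fun i => i ≠ o),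
      (if ∃ x, c x = i then (6 - ((corners c n i).card : ℝ)) else 0) -
        ((corners c n o).card : ℝ) := by
    by_cases hx : ∃ x, c x ≠ o
    · have he := euler h hc hx
      rw [← sum_filter, filter_filter]
      have he' : (((6 + ((corners c n o).card : ℤ)) : ℤ) : ℝ) ≤
          ((∑ i ∈ univ.filter (fun i => i ≠ o ∧ ∃ x, c x = i),
            (6 - ((corners c n i).card : ℤ)) : ℤ) : ℝ) := by exact_mod_cast he
      push_cast at he'
      linarith
    · push Not at hx
      have h1 : ∀ i ∈ univ.filter (fun i => i ≠ o), ¬ ∃ x, c x = i := by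
        rintro i hi ⟨x, hxi⟩
        exact (mem_filter.1 hi).2 (hxi.symm.trans (hx x))
      have h2 : ∑ i ∈ univ.filter (fun i => i ≠ o),
          (if ∃ x, c x = i then (6 - ((corners c n i).card : ℝ)) else 0) = 0 :=
        sum_eq_zero fun i hi => if_neg (h1 i hi)
      rw [h2, ← e5, sum_eq_zero, sub_zero]
      intro i hi
      rw [(h86_sd_empty G (n := n) (h1 i hi)).2, filter_empty, card_empty, Nat.cast_zero]
  rw [e1, e2, e2', bal_sum G h, e3, e5, e4]
  have he0 : (0 : ℝ) ≤ e0 := by unfold e0; norm_num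
  have e7 := mul_nonneg he0 e6
  linarith

end Pool.Agent.Helper98.LC3
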