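import Pool.Agent.Helper98.LC3.A.Comb
import Pool.Agent.Helper98.LC3.P.Gmin
import Pool.Agent.Helper98.LC.B.EdgeRev

/-!
# LC3-A07: a class with five edges, two of them outer, pays at most twice

* `wall_notS`: `e` and `es c (es c e)` outer edges of the class `i` (`i ≠ o`), `k = enb c (es c e)`; claim: not `InS k`.  Suppose `InS k`.  `g = eopp c (es c e) ∈ corners k`.
  `enb c (es c g) = c (tip (es c e)) = enb c e = o` (`enb_wall` for the corner `es c e`, `tip_es`), so `es c g ∈ oc k`.  Let `g' ∈ corners k` with `es c g' = g` (`es_bij`).  `wall_end` with `e' = g'`: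
  `enb c g' = enb c (es c (eopp c (es c g'))) = enb c (es c (eopp c g)) = enb c (es c (es c e)) = o` (`eopp_eopp`), so `g' ∈ oc k`; `(oc k).card = 1`, so `g' = es c g` and `es c (es c g) = g`: contradiction to `es_card`
  (`card = 5`, `m = 2`).
* `pay52`: `card = 5`, `oc` has two elements; `corners i = {e_0, .., e_4}` (`corners_eq`) for `e_0 ∈ oc`; the other element of `oc` is `e_j`, `j ≠ 1`, `j ≠ 4` (`enb_es_ne`: two consecutive edges have different neighbours), so `j = 2` or `j = 3`;
  if `j = 3` then `es c (es c e_3) = e_0`.  So there is `e ∈ oc` with `es c (es c e) ∈ oc`, `oc = {e, es c (es c e)}`, `k = enb c (es c e)` not in `S`.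
  `c (tip (eopp c e)) = enb c (es c e) = k` (`wall_start`), `enb c (es c (eopp c (es c (es c e)))) = enb c (es c e) = k` (`wall_end` with `e' = es c e`).  So two of the four terms vanish.
-/

namespace Pool.Agent.Helper98.LC3

open Finset Real Pool.Agent.Helper98.LC

variable {ι : Type} [DecidableEq ι]

theorem wall_notS [Fintype ι] {G : Net} {c : V → ι} {o : ι} {n : ℕ} (h : OutBox c o n) (hc : Conn c)
    (hcc : ∀ k, k ≠ o → CoConn c k) {i : ι} (hi : i ≠ o) {e : V × Fin 6} (he : e ∈ oc c n o i)
    (he2 : es c (es c e) ∈ oc c n o i) : ¬ InS G c n o (enb c (es c e)) := by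
  sorry

open Classical in
theorem pay52 [Fintype ι] {G : Net} {c : V → ι} {o : ι} {n : ℕ} (h : OutBox c o n) (hc : Conn c)
    (hcc : ∀ k, k ≠ o → CoConn c k) {i : ι} (hi : i ≠ o) (h5 : (corners c n i).card = 5)
    (h2 : (oc c n o i).card = 2) :
    ∑ e ∈ oc c n o i, ((if InS G c n o (c (tip (eopp c e))) then 1 else 0) +
      (if InS G c n o (enb c (es c (eopp c e))) then 1 else 0) : ℝ) ≤ 2 := by
  sorry

end Pool.Agent.Helper98.LC3
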